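import Pool.Agent.Helper5.MD3.R0Defs

/-!
# Admissible pair indices: definitions
-/

open scoped Nat

namespace Pool.Agent.Helper5.MD

/-- `b` is an admissible pair index for `(ε, κ)` -/
def PAdm (ε : Bool) (κ b : ℕ) : Prop :=
  1 ≤ b ∧ 6 * (b + 1) ≤ κ ∧ Good 85 (κ - 2 * b) ∧ κ % 8 = (if ε then 7 else 1)

end Pool.Agent.Helper5.MD
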