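import Pool.Agent.Helper5.MD.D5IneqX

/-!
# MS-J1 : the inequality for the first row of `X`

Same method as `MD/D5IneqX.lean` (`a = 0`).  Windows: `C(x+2e-1, e)` has window `[x+e, x+2e-1]`, `C(x+c+e, c-e)` has window `[x+2e+1, x+c+e]`.
Far case: by `vC_window` `4 vC (x+2e-1) e ≤ 12 + (2e-1)`, `4 vC (x+c+e) (c-e) ≤ 12 + (c+e)`, sum `≤ 6 + (3e + c)/4 ≤ 6 + c ≤ 2 c - 1` for `c ≥ 7`; near case `c ≤ 6`: `vC_near` (`x = 85 mod 128`,
all numbers `≤ 85 + 12 < 128`) and a finite check; the only exception is `e = 1, c = 2`.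
-/

open scoped Nat

namespace Pool.Agent.Helper5.MD

/-- the binary digit sum formula for `vC`, for computations -/
private def jcv (n r : ℕ) : ℕ :=
  (Nat.digits 2 r).sum + (Nat.digits 2 (n - r)).sum - (Nat.digits 2 n).sum

private theorem vC_eq_jcv {n r : ℕ} (h : r ≤ n) : vC n r = jcv n r := by
  have : Fact (Nat.Prime 2) := ⟨Nat.prime_two⟩
  have h1 := sub_one_mul_padicValNat_choose_eq_sub_sum_digits (p := 2) h
  unfold vC jcv
  simpa using h1

private theorem jcheck : ∀ c ∈ List.range 7, ∀ e ∈ List.range (c + 1), e = 0 ∨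
    (jcv (85 + 2 * e - 1) e + jcv (85 + c + e) (c - e) ≤ 2 * c ∧ ((e = 1 ∧ c = 2) ∨
    jcv (85 + 2 * e - 1) e + jcv (85 + c + e) (c - e) + 1 ≤ 2 * c)) := by
  unfold jcv
  decide

private theorem jcheck0 : ∀ c ∈ List.range 2, jcv (85 - 1) c ≤ 2 * c := by
  unfold jcv
  decide

private theorem jcheck1 : ∀ c ∈ List.range 3, jcv (85 - 3) c ≤ 2 * c ∧
    (c = 0 ∨ jcv (85 - 3) c + 1 ≤ 2 * c) := by
  unfold jcv
  decide

private theorem ineq_P (x : ℕ) (hG : Good 85 x) (c e : ℕ) (he : 1 ≤ e) (hec : e ≤ c) :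
    vC (x + 2 * e - 1) e + vC (x + c + e) (c - e) ≤ 2 * c ∧ ((e = 1 ∧ c = 2) ∨
    vC (x + 2 * e - 1) e + vC (x + c + e) (c - e) + 1 ≤ 2 * c) := by
  by_cases hn : c ≤ 6
  · have hmod := hG.1
    obtain ⟨t, ht⟩ : ∃ t, x = 85 + 128 * t := ⟨x / 128, by omega⟩
    have e1 : x + 2 * e - 1 = (85 + 2 * e - 1) + 128 * t := by omega
    have e2 : x + c + e = (85 + c + e) + 128 * t := by omega
    rw [e1, e2, vC_near _ _ _ (by omega) (by omega), vC_near _ _ _ (by omega) (by omega),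
      vC_eq_jcv (by omega), vC_eq_jcv (by omega)]
    rcases jcheck c (List.mem_range.2 (by omega)) e (List.mem_range.2 (by omega)) with h | h
    · omega
    · exact h
  · have h1 := vC_window 85 x hG (x + 2 * e - 1) e (2 * e - 1)
      (by omega) (by omega) (by omega)
    have h2 := vC_window 85 x hG (x + c + e) (c - e) (c + e) (by omega) (by omega) (by omega)
    constructor
    · omega
    · right
      omega

theorem ineq_PX0 (x : ℕ) (hG : Good 85 x) (c e : ℕ) (he : 1 ≤ e) (hec : e ≤ c)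
    (hne : ¬ (e = 1 ∧ c = 2)) :
    vC (x + 2 * e - 1) e + vC (x + c + e) (c - e) + 1 ≤ 2 * c := by
  rcases (ineq_P x hG c e he hec).2 with h | h
  · exact absurd h hne
  · exact h

theorem ineq_PY0 (x : ℕ) (hG : Good 85 x) (c e : ℕ) (he : 1 ≤ e) (hec : e ≤ c) :
    vC (x + 2 * e - 1) e + vC (x + c + e) (c - e) ≤ 2 * c :=
  (ineq_P x hG c e he hec).1

theorem ineq_PQ0 (x : ℕ) (hG : Good 85 x) (c : ℕ) (hc : c < x) :
    vC (x - 1) c ≤ 2 * c ∧ (2 ≤ c → vC (x - 1) c + 1 ≤ 2 * c) := by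
  by_cases hn : c ≤ 1
  · have hmod := hG.1
    obtain ⟨t, ht⟩ : ∃ t, x = 85 + 128 * t := ⟨x / 128, by omega⟩
    have e1 : x - 1 = (85 - 1) + 128 * t := by omega
    rw [e1, vC_near _ _ _ (by omega) (by omega), vC_eq_jcv (by omega)]
    exact ⟨jcheck0 c (List.mem_range.2 (by omega)), fun h => by omega⟩
  · have h1 := vC_window 85 x hG (x - 1) c c (by omega) (by omega) (by omega)
    omega

theorem ineq_PQ1 (x : ℕ) (hG : Good 85 x) (c : ℕ) (hc : c + 2 < x) :
    vC (x - 3) c ≤ 2 * c ∧ (1 ≤ c → vC (x - 3) c + 1 ≤ 2 * c) := by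
  by_cases hn : c ≤ 2
  · have hmod := hG.1
    obtain ⟨t, ht⟩ : ∃ t, x = 85 + 128 * t := ⟨x / 128, by omega⟩
    have e1 : x - 3 = (85 - 3) + 128 * t := by omega
    rw [e1, vC_near _ _ _ (by omega) (by omega), vC_eq_jcv (by omega)]
    obtain ⟨h1, h2⟩ := jcheck1 c (List.mem_range.2 (by omega))
    refine ⟨h1, fun h => ?_⟩
    rcases h2 with h2 | h2
    · omega
    · exact h2
  · have h1 := vC_window 85 x hG (x - 3) c (c + 2) (by omega) (by omega) (by omega)
    omega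

end Pool.Agent.Helper5.MD
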