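import Pool.Agent.Helper5.MD.D4IneqP

/-!
# MS-J2 : the inequality for the inverse block, with one more factor two

Same method as `ineq_P` in `MD/D4IneqP.lean` (same reduction, far case `b ≥ 13` and a finite check for `b ≤ 12`), now for `x = 85 mod 128` and `e ≥ 1`, where the inequality is strict except for
`e = 1, b = c = 2` (checked numerically for all `b, c ≤ 60` and adversarial `x`).
-/

open scoped Nat

namespace Pool.Agent.Helper5.MD

namespace IneqPG

open IneqP

/-- The finite check at one place. -/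
private def goodG (b c e : ℕ) : Bool :=
  Nat.ble (W (85 + 2 * e) (2 * e) + W (85 + 2 * e - 1) (2 * e) +
      W (85 + b + e) (b - e) + W (85 + c + e) (c - e) +
      2 * (2 * e - pc 7 (2 * e)) + 1)
    (2 * (b - e) + 2 * (c - e) + 2 * e + 2 * (3 * e - pc 7 (3 * e)))

/-- The finite check. -/
private def goodsG : Bool :=
  (List.range 13).all fun b => (List.range 13).all fun c =>
    (List.range 13).all fun e => !(Nat.ble e b && Nat.ble e c && Nat.ble 1 e &&
      !(Nat.beq e 1 && Nat.beq b 2 && Nat.beq c 2)) || goodG b c e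

private theorem goodsG_true : goodsG = true := by
  decide +kernel

private theorem checkG (b c e : ℕ) (hb : b < 13) (hc : c < 13) (he : e < 13)
    (he1 : 1 ≤ e) (heb : e ≤ b) (hec : e ≤ c) (hne : ¬ (e = 1 ∧ b = 2 ∧ c = 2)) :
    W (85 + 2 * e) (2 * e) + W (85 + 2 * e - 1) (2 * e) +
      W (85 + b + e) (b - e) + W (85 + c + e) (c - e) +
      2 * (2 * e - pc 7 (2 * e)) + 1 ≤
    2 * (b - e) + 2 * (c - e) + 2 * e + 2 * (3 * e - pc 7 (3 * e)) := by
  have h := goodsG_true
  unfold goodsG at h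
  rw [List.all_eq_true] at h
  have h2 := h b (List.mem_range.mpr hb)
  rw [List.all_eq_true] at h2
  have h3 := h2 c (List.mem_range.mpr hc)
  rw [List.all_eq_true] at h3
  have h4 := h3 e (List.mem_range.mpr he)
  have h5 : (Nat.beq e 1 && Nat.beq b 2 && Nat.beq c 2) = false := by
    by_contra hcon
    rw [Bool.not_eq_false, Bool.and_eq_true, Bool.and_eq_true] at hcon
    exact hne ⟨Nat.eq_of_beq_eq_true hcon.1.1, Nat.eq_of_beq_eq_true hcon.1.2,
      Nat.eq_of_beq_eq_true hcon.2⟩
  rw [Nat.ble_eq_true_of_le heb, Nat.ble_eq_true_of_le hec, Nat.ble_eq_true_of_le he1, h5] at h4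
  simp only [Bool.and_self, Bool.not_true, Bool.not_false, Bool.false_or] at h4
  exact Nat.le_of_ble_eq_true h4

private theorem nearG (x : ℕ) (hG : Good 85 x)
    (b c e : ℕ) (he1 : 1 ≤ e) (heb : e ≤ b) (hec : e ≤ c) (hb : b ≤ 12) (hc : c ≤ 12)
    (hne : ¬ (e = 1 ∧ b = 2 ∧ c = 2)) :
    vC (x + 2 * e) (2 * e) + vC (x + 2 * e - 1) (2 * e) + vC (x + b + e) (b - e) +
      vC (x + c + e) (c - e) + 2 * vf (2 * e) + 1 ≤
    2 * (b - e) + 2 * (c - e) + 2 * e + 2 * vf (3 * e) := by
  obtain ⟨t, ht⟩ : ∃ t, x = 85 + 128 * t := ⟨x / 128, by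
    have := hG.1
    omega⟩
  have e1 : vC (x + 2 * e) (2 * e) = W (85 + 2 * e) (2 * e) := by
    rw [show x + 2 * e = (85 + 2 * e) + 128 * t by omega, vC_near _ _ _ (by omega) (by omega),
      vC_pc _ _ (by omega) (by omega), W]
  have e2 : vC (x + 2 * e - 1) (2 * e) = W (85 + 2 * e - 1) (2 * e) := by
    rw [show x + 2 * e - 1 = (85 + 2 * e - 1) + 128 * t by omega,
      vC_near _ _ _ (by omega) (by omega), vC_pc _ _ (by omega) (by omega), W]
  have e3 : vC (x + b + e) (b - e) = W (85 + b + e) (b - e) := by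
    rw [show x + b + e = (85 + b + e) + 128 * t by omega,
      vC_near _ _ _ (by omega) (by omega), vC_pc _ _ (by omega) (by omega), W]
  have e4 : vC (x + c + e) (c - e) = W (85 + c + e) (c - e) := by
    rw [show x + c + e = (85 + c + e) + 128 * t by omega,
      vC_near _ _ _ (by omega) (by omega), vC_pc _ _ (by omega) (by omega), W]
  rw [e1, e2, e3, e4, vf_pc (2 * e) (by omega), vf_pc (3 * e) (by omega)]
  exact checkG b c e (by omega) (by omega) (by omega) he1 heb hec hne

private theorem farG (x : ℕ) (hx1 : 1 ≤ x) (hG : Good 85 x)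
    (b c e : ℕ) (he : 1 ≤ e) (hec : e ≤ c) (hcb : c ≤ b) (hb : 13 ≤ b) :
    vC (x + 2 * e) (2 * e) + vC (x + 2 * e - 1) (2 * e) + vC (x + b + e) (b - e) +
      vC (x + c + e) (c - e) + 2 * vf (2 * e) + 1 ≤
    2 * (b - e) + 2 * (c - e) + 2 * e + 2 * vf (3 * e) := by
  have h1 := id1 x b e (by omega)
  have h2 := id1 x c e hec
  have h3 := id2 x e hx1
  have h4 := vC_window 85 x hG (x + b + e) (b + e) (b + e) (by omega) (by omega) (by omega)
  have h5 := vC_window 85 x hG (x + c + e) (c + e) (c + e) (by omega) (by omega) (by omega)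
  have h6 : padicValNat 2 x = 0 := by
    apply padicValNat.eq_zero_of_not_dvd
    have := hG.1
    omega
  have h7 := vC_le_log (b + e) (2 * e)
  have h8 := vC_le_log (c + e) (2 * e)
  have h9 := four_log (b + e)
  have h10 := four_log (c + e)
  have h11 := eight_log (3 * e)
  have h12 := vf_eq (2 * e)
  have h13 := vf_eq (3 * e)
  have h14 := digits_sum_le_log (3 * e) (by omega)
  have h15 := one_le_digits_sum (2 * e) (by omega)
  omega

end IneqPG

open IneqPG in
theorem ineq_PG (x : ℕ) (hG : Good 85 x) (b c e : ℕ) (he : 1 ≤ e) (heb : e ≤ b) (hec : e ≤ c)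
    (hne : ¬ (e = 1 ∧ b = 2 ∧ c = 2)) :
    vC (x + 2 * e) (2 * e) + vC (x + 2 * e - 1) (2 * e) + vC (x + b + e) (b - e) +
      vC (x + c + e) (c - e) + 2 * vf (2 * e) + 1 ≤
    2 * (b - e) + 2 * (c - e) + 2 * e + 2 * vf (3 * e) := by
  have hx1 : 1 ≤ x := by
    have := hG.1
    omega
  by_cases hn : b ≤ 12 ∧ c ≤ 12
  · exact nearG x hG b c e he heb hec hn.1 hn.2 hne
  · rcases le_total c b with h | h
    · exact farG x hx1 hG b c e he hec h (by omega)
    · have := farG x hx1 hG c b e he heb h (by omega)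
      omega

end Pool.Agent.Helper5.MD
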