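import Pool.Agent.Helper5.MD.V5Pivot
import Pool.Agent.Helper5.MD.V6Eta
import Pool.Agent.Helper5.MD4.J0Defs

/-!
# MS-J3 : special entries at an admissible pair index

Put `x = κ - 2 b ≡ 85 mod 128`.  `ε = false`: `κ ≡ 1 mod 8`, `b = (κ - x)/2 ≡ 2 mod 4`, `κ - b = (κ + x)/2 ≡ 3 mod 4`.  `ε = true`: `κ ≡ 7 mod 8`, `b ≡ 1 mod 4`, `κ - b ≡ 2 mod 4`.
`x - 1 ≡ 84 mod 128` has valuation `2`, `x + 3 ≡ 88 mod 128` valuation `3`.
* `4 LL (b+1) b = 2 (κ-b)(κ-b-1)(κ-3b) / ((2b+1)(x-1))`, with `κ - 3 b - 3` instead of `κ - 3 b` for `ε = true` (see `LL_succ` in `MD/V6Eta.lean`): valuation `1 + 1 - 2 = 0`.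
* `4 UU b (b+1) = -2 b (b+1) (2κ-3b-3) / ((2κ-2b-1)(x-1))`, with `2 κ - 3 b` instead of `2 κ - 3 b - 3` for `ε = true`: `1 + 1 - 2 = 0`.
* `4 LI (b-1) (b-2) = -2 (κ-b+1)(κ-b+2)(κ-3b+6) / ((2b-3)(x+3))`, with `κ - 3 b + 3` instead of `κ - 3 b + 6` for `ε = true`: `(κ-b+1)(κ-b+2)` is divisible by `4`, total `≥ 1 + 2 - 3 = 0`.
* pivots: `padicVal_PS` with `w = b`, `e = 1`: `vC x 2 = vC (x-1) 2 = 1`, `vf 3 = vf 2 = 1`, and `eta ε κ b 1 = 0`: both top numbers of the binomials `C(n, 3)` are `≡ 3 mod 4`.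
* `eta ε κ (b-1) 1 ≥ 1`: for `ε = false` the number `κ - 3 (b-1) = κ - 3 b + 3` is even (`vC_three_of_even`), for `ε = true` the number `κ - 3 (b-1) - 1 = κ - 3 b + 2` is even.
-/

open scoped Nat

namespace Pool.Agent.Helper5.MD

private lemma un_odd (z o : ℤ) (hz : z % 2 = 1) (ho : o % 2 = 1) : Un ((z : ℚ) / (o : ℚ)) := by
  have hz0 : z ≠ 0 := by omega
  have ho0 : o ≠ 0 := by omega
  have h1 : ((z : ℚ)) ≠ 0 := by exact_mod_cast hz0
  have h2 : ((o : ℚ)) ≠ 0 := by exact_mod_cast ho0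
  have h3 : padicValInt 2 o = 0 := by
    apply padicValInt.eq_zero_of_not_dvd
    omega
  have h4 : padicValInt 2 z = 0 := by
    apply padicValInt.eq_zero_of_not_dvd
    omega
  have h5 : padicValRat 2 ((z : ℚ) / (o : ℚ)) = 0 := by
    rw [padicValRat.div h1 h2, padicValRat.of_int, padicValRat.of_int, h3, h4]
    simp
  refine ⟨Or.inr h5.ge, ?_⟩
  rintro (h | h)
  · exact div_ne_zero h1 h2 h
  · rw [h5] at h
    omega

private lemma PAdm.param {ε : Bool} {κ b : ℕ} (h : PAdm ε κ b) :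
    ∃ q r : ℕ, (ε = false ∧ b = 4 * r + 2 ∧ κ = 2 * b + 128 * q + 85) ∨
      (ε = true ∧ b = 4 * r + 1 ∧ κ = 2 * b + 128 * q + 85) := by
  obtain ⟨h1, h6, ⟨hmod, _⟩, hκ⟩ := h
  refine ⟨(κ - 2 * b) / 128, b / 4, ?_⟩
  cases ε with
  | false =>
    left
    simp only [Bool.false_eq_true, if_false] at hκ
    refine ⟨rfl, ?_, ?_⟩ <;> omega
  | true =>
    right
    simp only [if_true] at hκ
    refine ⟨rfl, ?_, ?_⟩ <;> omega

theorem PAdm.ll1 {ε : Bool} {κ b : ℕ} (h : PAdm ε κ b) : Un (2 ^ 2 * LL ε κ (b + 1) b) := by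
  have h6 := h.2.1
  rw [LL_succ ε κ b (by omega)]
  have e2 : (2 * (b : ℚ) + 1) ≠ 0 := by positivity
  obtain ⟨q, r, ⟨rfl, hb, hκ⟩ | ⟨rfl, hb, hκ⟩⟩ := h.param
  · have hbq : (b : ℚ) = 4 * r + 2 := by rw [hb]; push_cast; ring
    have hκq : (κ : ℚ) = 2 * b + 128 * q + 85 := by rw [hκ]; push_cast; ring
    have e1 : (32 * (q : ℚ) + 21) ≠ 0 := by positivity
    have key : (2 : ℚ) ^ 2 * (((κ : ℚ) - b) * (κ - b - 1) * (tt false κ b : ℚ) /
        (2 * (2 * b + 1) * (κ - 2 * b - 1))) =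
        (((4 * (r : ℤ) + 128 * q + 87) * (2 * r + 64 * q + 43) * (-4 * r + 128 * q + 83) : ℤ) : ℚ) /
          (((2 * (b : ℤ) + 1) * (32 * q + 21) : ℤ) : ℚ) := by
      have e3 : (κ : ℚ) - 2 * b - 1 = 4 * (32 * q + 21) := by rw [hκq]; ring
      have e4 : (κ : ℚ) - b = 4 * r + 128 * q + 87 := by rw [hκq, hbq]; ring
      have e5 : (tt false κ b : ℚ) = -4 * r + 128 * q + 83 := by
        simp only [tt, Bool.false_eq_true, if_false]
        push_cast
        rw [hκq, hbq]; ring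
      rw [e3, e4, e5]
      push_cast
      field_simp
      ring
    rw [key]
    refine un_odd _ _ ?_ ?_
    · simp [Int.mul_emod, Int.add_emod]
    · simp [Int.mul_emod, Int.add_emod]
  · have hbq : (b : ℚ) = 4 * r + 1 := by rw [hb]; push_cast; ring
    have hκq : (κ : ℚ) = 2 * b + 128 * q + 85 := by rw [hκ]; push_cast; ring
    have e1 : (32 * (q : ℚ) + 21) ≠ 0 := by positivity
    have key : (2 : ℚ) ^ 2 * (((κ : ℚ) - b) * (κ - b - 1) * (tt true κ b : ℚ) /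
        (2 * (2 * b + 1) * (κ - 2 * b - 1))) =
        (((2 * (r : ℤ) + 64 * q + 43) * (4 * r + 128 * q + 85) * (-4 * r + 128 * q + 81) : ℤ) : ℚ) /
          (((2 * (b : ℤ) + 1) * (32 * q + 21) : ℤ) : ℚ) := by
      have e3 : (κ : ℚ) - 2 * b - 1 = 4 * (32 * q + 21) := by rw [hκq]; ring
      have e4 : (κ : ℚ) - b = 4 * r + 128 * q + 86 := by rw [hκq, hbq]; ring
      have e5 : (tt true κ b : ℚ) = -4 * r + 128 * q + 81 := by
        simp only [tt, if_true]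
        push_cast
        rw [hκq, hbq]; ring
      rw [e3, e4, e5]
      push_cast
      field_simp
      ring
    rw [key]
    refine un_odd _ _ ?_ ?_
    · simp [Int.mul_emod, Int.add_emod]
    · simp [Int.mul_emod, Int.add_emod]

private lemma mu_succ (κ b : ℕ) (h : 3 * (b + 1) < κ) :
    mu (κ : ℚ) b (b + 1) = -(b * (b + 1) * (2 * κ - 3 * b - 3)) /
      (2 * (2 * κ - 2 * b - 1) * (κ - 2 * b - 1)) := by
  have hκ : (3 * ((b : ℚ) + 1)) < κ := by exact_mod_cast h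
  have hn : (0 : ℚ) ≤ b := Nat.cast_nonneg b
  have e1 : (κ : ℚ) - 2 * b - 1 ≠ 0 := by
    have : (0 : ℚ) < (κ : ℚ) - 2 * b - 1 := by linarith
    exact this.ne'
  have e2 : 2 * (κ : ℚ) - 2 * b - 1 ≠ 0 := by
    have : (0 : ℚ) < 2 * (κ : ℚ) - 2 * b - 1 := by linarith
    exact this.ne'
  have e3 : 2 * (κ : ℚ) - 3 * b ≠ 0 := by
    have : (0 : ℚ) < 2 * (κ : ℚ) - 3 * b := by linarith
    exact this.ne'
  unfold mu
  rw [if_pos (Nat.le_succ b)]
  have : Finset.Ico b (b + 1) = {b} := by simp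
  rw [this, Finset.prod_singleton]
  have e4 : (κ : ℚ) - b - b - 1 = κ - 2 * b - 1 := by ring
  rw [e4]
  push_cast
  field_simp
  ring

theorem PAdm.uu1 {ε : Bool} {κ b : ℕ} (h : PAdm ε κ b) : Un (2 ^ 2 * UU ε κ b (b + 1)) := by
  have h6 := h.2.1
  have hκ0 : (3 * ((b : ℚ) + 1)) < κ := by exact_mod_cast (by omega : 3 * (b + 1) < κ)
  have hn : (0 : ℚ) ≤ b := Nat.cast_nonneg b
  have e2 : 2 * (κ : ℚ) - 2 * b - 1 ≠ 0 := by
    have : (0 : ℚ) < 2 * (κ : ℚ) - 2 * b - 1 := by linarith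
    exact this.ne'
  obtain ⟨q, r, ⟨rfl, hb, hκ⟩ | ⟨rfl, hb, hκ⟩⟩ := h.param
  · have hbq : (b : ℚ) = 4 * r + 2 := by rw [hb]; push_cast; ring
    have hκq : (κ : ℚ) = 2 * b + 128 * q + 85 := by rw [hκ]; push_cast; ring
    have e1 : (32 * (q : ℚ) + 21) ≠ 0 := by positivity
    have e3 : (κ : ℚ) - 2 * b - 1 = 4 * (32 * q + 21) := by rw [hκq]; ring
    have key : (2 : ℚ) ^ 2 * UU false κ b (b + 1) =
        ((-((2 * (r : ℤ) + 1) * (4 * r + 3) * (2 * κ - 3 * b - 3)) : ℤ) : ℚ) /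
          (((2 * (κ : ℤ) - 2 * b - 1) * (32 * q + 21) : ℤ) : ℚ) := by
      simp only [UU, Bool.false_eq_true, if_false]
      rw [mu_succ κ b (by omega), e3]
      push_cast
      rw [mul_div_assoc', div_eq_div_iff (mul_ne_zero (mul_ne_zero two_ne_zero e2) (mul_ne_zero four_ne_zero e1)) (mul_ne_zero e2 e1), hbq]
      ring
    rw [key]
    refine un_odd _ _ ?_ ?_
    · have : (2 * (κ : ℤ) - 3 * b - 3) = 2 * (κ - 6 * r - 5) + 1 := by
        rw [hb]; push_cast; ring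
      rw [this]
      have : (-((2 * (r : ℤ) + 1) * (4 * r + 3) * (2 * (κ - 6 * r - 5) + 1))) % 2 = 1 := by
        simp [Int.mul_emod, Int.add_emod, Int.neg_emod]
      exact this
    · simp [Int.mul_emod, Int.add_emod, Int.sub_emod]
  · have hbq : (b : ℚ) = 4 * r + 1 := by rw [hb]; push_cast; ring
    have hκq : (κ : ℚ) = 2 * b + 128 * q + 85 := by rw [hκ]; push_cast; ring
    have e1 : (32 * (q : ℚ) + 21) ≠ 0 := by positivity
    have e3 : (κ : ℚ) - 2 * b - 1 = 4 * (32 * q + 21) := by rw [hκq]; ring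
    have e5 : 2 * (κ : ℚ) - 3 * b - 3 ≠ 0 := by
      have : (0 : ℚ) < 2 * (κ : ℚ) - 3 * b - 3 := by linarith
      exact this.ne'
    have key : (2 : ℚ) ^ 2 * UU true κ b (b + 1) =
        ((-((4 * (r : ℤ) + 1) * (2 * r + 1) * (2 * κ - 3 * b)) : ℤ) : ℚ) /
          (((2 * (κ : ℤ) - 2 * b - 1) * (32 * q + 21) : ℤ) : ℚ) := by
      simp only [UU, if_true]
      rw [mu_succ κ b (by omega), e3]
      have e6 : 2 * (κ : ℚ) - 3 * ((b + 1 : ℕ) : ℚ) = 2 * κ - 3 * b - 3 := by push_cast; ring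
      rw [e6]
      push_cast
      rw [div_mul_div_comm, mul_div_assoc', div_eq_div_iff
        (mul_ne_zero (mul_ne_zero (mul_ne_zero two_ne_zero e2) (mul_ne_zero four_ne_zero e1)) e5)
        (mul_ne_zero e2 e1), hbq]
      ring
    rw [key]
    refine un_odd _ _ ?_ ?_
    · have : (2 * (κ : ℤ) - 3 * b) = 2 * (κ - 6 * r - 2) + 1 := by
        rw [hb]; push_cast; ring
      rw [this]
      simp [Int.mul_emod, Int.add_emod, Int.neg_emod]
    · simp [Int.mul_emod, Int.add_emod, Int.sub_emod]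

theorem PAdm.li1 {ε : Bool} {κ b : ℕ} (h : PAdm ε κ b) (hb : 3 ≤ b) :
    VG 0 (2 ^ 2 * LI ε κ (b - 1) (b - 2)) := by
  have h6 := h.2.1
  obtain ⟨c, rfl⟩ : ∃ c, b = c + 3 := ⟨b - 3, by omega⟩
  rw [show c + 3 - 1 = c + 2 by omega, show c + 3 - 2 = c + 1 by omega]
  have hκ0 : (6 * ((c : ℚ) + 4)) ≤ κ := by exact_mod_cast h6
  have hn : (0 : ℚ) ≤ c := Nat.cast_nonneg c
  have f1 : (κ : ℚ) - c - 2 ≠ 0 := by
    have : (0 : ℚ) < (κ : ℚ) - c - 2 := by linarith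
    exact this.ne'
  have f2 : (κ : ℚ) - 3 * c - 6 ≠ 0 := by
    have : (0 : ℚ) < (κ : ℚ) - 3 * c - 6 := by linarith
    exact this.ne'
  have f3 : (κ : ℚ) - 2 * c - 3 ≠ 0 := by
    have : (0 : ℚ) < (κ : ℚ) - 2 * c - 3 := by linarith
    exact this.ne'
  have f4 : (κ : ℚ) - 3 * c - 3 ≠ 0 := by
    have : (0 : ℚ) < (κ : ℚ) - 3 * c - 3 := by linarith
    exact this.ne'
  have f5 : 2 * (c : ℚ) + 3 ≠ 0 := by positivity
  have hl : lamInv (κ : ℚ) (c + 2) (c + 1) = -((κ - c - 1) * (κ - c - 2) * (κ - 3 * c - 3)) /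
      (2 * (2 * c + 3) * (κ - 2 * c - 3)) := by
    unfold lamInv
    rw [if_pos (by omega)]
    have : Finset.Ico (c + 1) (c + 2) = {c + 1} := by simp
    rw [this, Finset.prod_singleton]
    push_cast
    have g1 : (κ : ℚ) - (c + 2) = κ - c - 2 := by ring
    have g2 : (κ : ℚ) - 3 * (c + 2) = κ - 3 * c - 6 := by ring
    have g3 : (κ : ℚ) - (c + 1) - (c + 2) = κ - 2 * c - 3 := by ring
    have g4 : 2 * ((c : ℚ) + 1) + 1 = 2 * c + 3 := by ring
    have g5 : ((c : ℚ) + 2) - (c + 1) = 1 := by ring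
    rw [g1, g2, g3, g4, g5, mul_one]
    rw [div_mul_div_comm, div_eq_div_iff (mul_ne_zero (mul_ne_zero f1 f2)
      (mul_ne_zero (mul_ne_zero two_ne_zero f5) f3))
      (mul_ne_zero (mul_ne_zero two_ne_zero f5) f3)]
    ring
  have hodd : (2 * (c : ℤ) + 3) % 2 = 1 := by omega
  obtain ⟨q, r, ⟨rfl, hb, hκ⟩ | ⟨rfl, hb, hκ⟩⟩ := h.param
  · obtain ⟨r, rfl⟩ : ∃ s, r = s + 1 := ⟨r - 1, by omega⟩
    have hcq : (c : ℚ) = 4 * r + 3 := by
      have : c = 4 * r + 3 := by omega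
      rw [this]; push_cast; ring
    have hκq : (κ : ℚ) = 2 * (c + 3) + 128 * q + 85 := by rw [hκ]; push_cast; ring
    have e1 : (16 * (q : ℚ) + 11) ≠ 0 := by positivity
    have e3 : (κ : ℚ) - 2 * c - 3 = 8 * (16 * q + 11) := by rw [hκq]; ring
    have e4 : (κ : ℚ) - c - 2 = 4 * (r + 32 * q + 23) := by rw [hκq, hcq]; ring
    have key : (2 : ℚ) ^ 2 * LI false κ (c + 2) (c + 1) =
        ((-((κ - c - 1) * ((r : ℤ) + 32 * q + 23) * (κ - 3 * c - 3)) : ℤ) : ℚ) /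
          (((2 * (c : ℤ) + 3) * (16 * q + 11) : ℤ) : ℚ) := by
      simp only [LI, Bool.false_eq_true, if_false]
      rw [hl, e3, e4]
      push_cast
      rw [mul_div_assoc', div_eq_div_iff (mul_ne_zero (mul_ne_zero two_ne_zero f5)
        (mul_ne_zero (by norm_num) e1)) (mul_ne_zero f5 e1)]
      ring
    rw [key]
    refine VG_div_odd _ _ ?_
    simp [Int.mul_emod, Int.add_emod]
  · obtain ⟨r, rfl⟩ : ∃ s, r = s + 1 := ⟨r - 1, by omega⟩
    have hcq : (c : ℚ) = 4 * r + 2 := by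
      have : c = 4 * r + 2 := by omega
      rw [this]; push_cast; ring
    have hκq : (κ : ℚ) = 2 * (c + 3) + 128 * q + 85 := by rw [hκ]; push_cast; ring
    have e1 : (16 * (q : ℚ) + 11) ≠ 0 := by positivity
    have e3 : (κ : ℚ) - 2 * c - 3 = 8 * (16 * q + 11) := by rw [hκq]; ring
    have e4 : (κ : ℚ) - c - 1 = 4 * (r + 32 * q + 23) := by rw [hκq, hcq]; ring
    have key : (2 : ℚ) ^ 2 * LI true κ (c + 2) (c + 1) =
        ((-(((r : ℤ) + 32 * q + 23) * (κ - c - 2) * (κ - 3 * c - 6)) : ℤ) : ℚ) /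
          (((2 * (c : ℤ) + 3) * (16 * q + 11) : ℤ) : ℚ) := by
      simp only [LI, if_true]
      rw [hl, e3, e4]
      have g1 : (κ : ℚ) - 3 * ((c + 2 : ℕ) : ℚ) = κ - 3 * c - 6 := by push_cast; ring
      have g2 : (κ : ℚ) - 3 * ((c + 1 : ℕ) : ℚ) = κ - 3 * c - 3 := by push_cast; ring
      rw [g1, g2]
      push_cast
      rw [div_mul_div_comm, mul_div_assoc', div_eq_div_iff (mul_ne_zero (mul_ne_zero
        (mul_ne_zero two_ne_zero f5) (mul_ne_zero (by norm_num) e1)) f4) (mul_ne_zero f5 e1)]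
      ring
    rw [key]
    refine VG_div_odd _ _ ?_
    simp [Int.mul_emod, Int.add_emod]

private lemma vC_three_odd {n : ℕ} (hn : n % 4 = 3) : vC n 3 = 0 := by
  unfold vC
  apply padicValNat.eq_zero_of_not_dvd
  obtain ⟨m, rfl⟩ : ∃ m, n = 4 * m + 3 := ⟨n / 4, by omega⟩
  intro hd
  have h1 : (4 * m + 3).descFactorial 3 = 3 ! * (4 * m + 3).choose 3 :=
    Nat.descFactorial_eq_factorial_mul_choose _ _
  have h2 : (4 * m + 3).descFactorial 3 = 2 * ((4 * m + 3) * (2 * m + 1) * (4 * m + 1)) := by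
    have e1 : 4 * m + 3 - 0 = 4 * m + 3 := rfl
    have e2 : 4 * m + 3 - 1 = 2 * (2 * m + 1) := by omega
    have e3 : 4 * m + 3 - 2 = 4 * m + 1 := by omega
    simp only [Nat.descFactorial_succ, Nat.descFactorial_zero, e1, e2, e3]
    ring
  have h5 : (3 ! : ℕ) = 6 := rfl
  rw [h2, h5] at h1
  have h6 : (4 * m + 3) * (2 * m + 1) * (4 * m + 1) = 3 * (4 * m + 3).choose 3 := by omega
  have h7 : 2 ∣ (4 * m + 3) * (2 * m + 1) * (4 * m + 1) := by
    rw [h6]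
    exact hd.mul_left 3
  rcases (Nat.prime_two.dvd_mul.1 h7) with h8 | h8
  · rcases (Nat.prime_two.dvd_mul.1 h8) with h9 | h9 <;> omega
  · omega

private lemma padicValNat_two_odd {n m : ℕ} (hn : n = 2 * m) (hm : m % 2 = 1) :
    padicValNat 2 n = 1 := by
  rw [hn, padicValNat.mul (by norm_num) (by omega), padicValNat_self,
    padicValNat.eq_zero_of_not_dvd (by omega)]

theorem PAdm.slope_eq {ε : Bool} {κ b : ℕ} (h : PAdm ε κ b) :
    padicValRat 2 (PS ε κ (b + 1)) = padicValRat 2 (PS ε κ b) := by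
  have h6 := h.2.1
  have hmain := padicVal_PS ε κ b 1 h.1 (by omega)
  have hv2 : vf 2 = 1 := by
    unfold vf
    exact padicValNat_two_odd (m := 1) (by rfl) (by norm_num)
  have hv3 : vf 3 = 1 := by
    unfold vf
    exact padicValNat_two_odd (m := 3) (by rfl) (by norm_num)
  obtain ⟨q, hq⟩ : ∃ q : ℕ, κ - 2 * b = 128 * q + 85 := by
    obtain ⟨_, _, ⟨hmod, _⟩, _⟩ := h
    exact ⟨(κ - 2 * b) / 128, by omega⟩
  have hc1 : vC (κ - 2 * b) 2 = 1 := by
    unfold vC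
    rw [hq, Nat.choose_two_right]
    refine padicValNat_two_odd (m := (128 * q + 85) * (32 * q + 21)) ?_ ?_
    · rw [show 128 * q + 85 - 1 = 2 * (2 * (32 * q + 21)) by omega]
      rw [show (128 * q + 85) * (2 * (2 * (32 * q + 21))) =
        2 * (2 * ((128 * q + 85) * (32 * q + 21))) by ring]
      exact Nat.mul_div_cancel_left _ (by norm_num)
    · simp [Nat.mul_mod, Nat.add_mod]
  have hc2 : vC (κ - 2 * b - 1) 2 = 1 := by
    unfold vC
    rw [hq, Nat.choose_two_right]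
    refine padicValNat_two_odd (m := (32 * q + 21) * (128 * q + 83)) ?_ ?_
    · rw [show 128 * q + 85 - 1 = 2 * (2 * (32 * q + 21)) by omega,
        show 2 * (2 * (32 * q + 21)) - 1 = 128 * q + 83 by omega]
      rw [show 2 * (2 * (32 * q + 21)) * (128 * q + 83) =
        2 * (2 * ((32 * q + 21) * (128 * q + 83))) by ring]
      exact Nat.mul_div_cancel_left _ (by norm_num)
    · simp [Nat.mul_mod, Nat.add_mod]
  have he : eta ε κ b 1 = 0 := by
    obtain ⟨q, r, ⟨rfl, hb, hκ⟩ | ⟨rfl, hb, hκ⟩⟩ := h.param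
    · simp only [eta, Bool.false_eq_true, if_false, mul_one]
      rw [vC_three_odd (by omega), vC_three_odd (by omega)]
    · simp only [eta, if_true, mul_one]
      rw [vC_three_odd (by omega), vC_three_odd (by omega)]
  rw [mul_one, mul_one, hc1, hc2, hv2, hv3, he] at hmain
  push_cast at hmain
  linarith

theorem PAdm.eta_pred {ε : Bool} {κ b : ℕ} (h : PAdm ε κ b) (hb : 2 ≤ b) :
    1 ≤ eta ε κ (b - 1) 1 := by
  have h6 := h.2.1
  obtain ⟨q, r, ⟨rfl, hb', hκ⟩ | ⟨rfl, hb', hκ⟩⟩ := h.param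
  · simp only [eta, Bool.false_eq_true, if_false, mul_one]
    have := vC_three_of_even (m := κ - 3 * (b - 1)) (by omega) (by omega)
    omega
  · simp only [eta, if_true, mul_one]
    have := vC_three_of_even (m := κ - 3 * (b - 1) - 1) (by omega) (by omega)
    omega

end Pool.Agent.Helper5.MD
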