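import Pool.Agent.Helper5.MD.D6Near
import Pool.Agent.Helper5.MD4.J1IneqX
import Pool.Agent.Helper5.MD4.J2IneqG
import Pool.Agent.Helper5.MD4.J3Special

/-!
# MS-J4 : near estimates at an admissible pair index `b`

Compare `MD/D6Near.lean`.  Put `x = κ - 2 b`, `w = b - e`, `i = b + a`, `j = b - c`.  Then `κ - 2 w - 1 = x + 2 e - 1`, `κ - w - j = x + c + e`.  Bounds: `VG_LL, VG_UU, VG_LI, VG_UI`, `padicVal_PS`.
* `near_PX`, `near_PY` (`1 ≤ e ≤ c`): `a ≥ 1`: `ineq_X` with `x0 = 85` (`b := c`); `a = 0`: `ineq_PX0`, except `e = 1, c = 2` where `VG_LL` gives `2^2 LL b (b-1)` even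
(`vC (x+1) 1 = v2 (x + 1) = 1`) and `PAdm.li1`; for `Y` use `ineq_PY0`.
* `near_PG`: `padicVal_PS` with `w = b - e`: `v (PS b) - v (PS (b-e)) = 2 e + 2 vf (3 e) + eta - 2 vf (2 e) - vC (x+2e) (2e) - vC (x+2e-1) (2e)`, `ineq_PG`; in the exceptional case `e = 1, c = d = 2` use
`PAdm.eta_pred`.
* `near_PS`: the term `w = b + e`: `e ≥ 2`: `ineq_S` (`η = eta`, no condition on it) ; `e = 1`: `PAdm.slope_eq`, `ineq_PQ1`; `e = 0`: `ineq_PQ0`.  So all terms have valuation `≥ v (PS b) + 1` except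
`w = b`, `i, j ∈ {b, b+1}` and `w = b + 1`, `i = j = b + 1`, which are units times `2^(v (PS b))` (`PAdm.ll1`, `PAdm.uu1`, `LL w w = UU w w = 1`); the two terms for `i = j = b + 1` add up to
something even (sum of two units).
-/

open scoped Nat

namespace Pool.Agent.Helper5.MD

private theorem j4_Un_iff (x : ℚ) : Un x ↔ x ≠ 0 ∧ padicValRat 2 x = 0 := by
  unfold Un VG
  constructor
  · rintro ⟨h1, h2⟩
    rw [not_or] at h2
    refine ⟨h2.1, ?_⟩
    rcases h1 with h1 | h1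
    · exact absurd h1 h2.1
    · omega
  · rintro ⟨h1, h2⟩
    refine ⟨Or.inr (by rw [h2]), ?_⟩
    rw [not_or]
    exact ⟨h1, by rw [h2]; norm_num⟩

private theorem j4_Un_mul {x y : ℚ} (hx : Un x) (hy : Un y) : Un (x * y) := by
  rw [j4_Un_iff] at *
  refine ⟨mul_ne_zero hx.1 hy.1, ?_⟩
  rw [padicValRat.mul hx.1 hy.1, hx.2, hy.2, add_zero]

private theorem j4_Un_one : Un (1 : ℚ) := by
  rw [j4_Un_iff]
  exact ⟨one_ne_zero, padicValRat.one⟩

private theorem j4_sub_one {x : ℚ} (hx : Un x) : VG 1 (x - 1) := by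
  rw [j4_Un_iff] at hx
  obtain ⟨hx0, hv⟩ := hx
  have hnum : x.num ≠ 0 := Rat.num_ne_zero.2 hx0
  have hd0 : x.den ≠ 0 := x.den_ne_zero
  have hco := x.reduced
  have hvd : padicValRat 2 x = padicValInt 2 x.num - padicValNat 2 x.den := rfl
  rw [hvd] at hv
  have hden : ¬ 2 ∣ x.den := by
    intro h
    have h1 : ¬ 2 ∣ x.num.natAbs := by
      intro h2
      have h3 := Nat.dvd_gcd h2 h
      rw [hco] at h3
      exact absurd h3 (by norm_num)
    have h2 : padicValInt 2 x.num = 0 := padicValNat.eq_zero_of_not_dvd h1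
    have h3 := one_le_padicValNat_of_dvd (p := 2) hd0 h
    rw [h2] at hv
    omega
  have hden' : padicValNat 2 x.den = 0 := padicValNat.eq_zero_of_not_dvd hden
  have hnum' : ¬ 2 ∣ x.num.natAbs := by
    intro h
    have h3 := one_le_padicValNat_of_dvd (p := 2) (by omega) h
    have h4 : padicValInt 2 x.num = padicValNat 2 x.num.natAbs := rfl
    rw [h4, hden'] at hv
    omega
  obtain ⟨z, hz⟩ : ∃ z : ℤ, x.num - x.den = 2 * z := ⟨(x.num - x.den) / 2, by omega⟩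
  have e : x - 1 = (2 : ℚ) ^ (1 : ℤ) * z * (x.den : ℚ)⁻¹ := by
    have h1 : (x.den : ℚ) ≠ 0 := by exact_mod_cast hd0
    have h2 : ((x.num - x.den : ℤ) : ℚ) = ((2 * z : ℤ) : ℚ) := by rw [hz]
    push_cast at h2
    rw [zpow_one, ← h2, sub_mul, mul_inv_cancel₀ h1]
    congr 1
    rw [← div_eq_mul_inv]
    exact (Rat.num_div_den x).symm
  have hi : VG 0 (x.den : ℚ)⁻¹ := by
    right
    rw [padicValRat.inv, padicValRat.of_nat, hden']
    norm_num
  rw [e]
  have := ((VG_two_zpow 1).mul (VG_int z)).mul hi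
  simpa using this

private theorem j4_add {x y : ℚ} (hx : Un x) (hy : Un y) : VG 1 (x + y) := by
  have e : x + y = (x - 1) + (y - 1) + (2 : ℚ) ^ (1 : ℤ) := by
    rw [zpow_one]
    ring
  rw [e]
  exact ((j4_sub_one hx).add (j4_sub_one hy)).add (VG_two_zpow 1)

private theorem j4_PS (ε : Bool) (κ w : ℕ) (hw : 1 ≤ w) (h : 3 * w < κ) :
    Un (2 ^ (-padicValRat 2 (PS ε κ w)) * PS ε κ w) := by
  have h0 := PS_ne_zero ε κ w hw h
  rw [j4_Un_iff]
  refine ⟨mul_ne_zero (zpow_ne_zero _ two_ne_zero) h0, ?_⟩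
  rw [padicValRat.mul (zpow_ne_zero _ two_ne_zero) h0, padicValRat_two_zpow]
  ring

private theorem j4_fac (κ w : ℕ) (h : 3 * w < κ) :
    ((κ : ℚ) - 3 * w ≠ 0) ∧ (2 * (κ : ℚ) - 3 * w ≠ 0) := by
  have h1 : (3 * w : ℚ) < κ := by exact_mod_cast h
  have h2 : (0 : ℚ) ≤ w := by positivity
  constructor
  · apply ne_of_gt
    linarith
  · apply ne_of_gt
    linarith

private theorem j4_LL_one (ε : Bool) (κ w : ℕ) (h : 3 * w < κ) : LL ε κ w w = 1 := by
  have h1 : lam κ w w = 1 := by simp [lam]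
  unfold LL
  cases ε
  · simpa using h1
  · simp only [if_true]
    rw [h1, div_self (j4_fac κ w h).1, one_mul]

private theorem j4_UU_one (ε : Bool) (κ w : ℕ) (h : 3 * w < κ) : UU ε κ w w = 1 := by
  have h1 : mu κ w w = (2 * κ - 3 * w) / (2 * κ - 3 * w) := by simp [mu]
  rw [div_self (j4_fac κ w h).2] at h1
  unfold UU
  cases ε
  · simpa using h1
  · simp only [if_true]
    rw [h1, div_self (j4_fac κ w h).2, one_mul]

/-- a term of the Schur complement in scaled form -/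
private theorem j4_term (ε : Bool) (κ i j w : ℕ) :
    (2 : ℚ) ^ (2 * (i : ℤ) + 2 * j - 1) * (LL ε κ i w * PP ε κ w * UU ε κ w j) =
      (2 ^ (2 * (i : ℤ) - 2 * w) * LL ε κ i w) * PS ε κ w *
        (2 ^ (2 * (j : ℤ) - 2 * w) * UU ε κ w j) := by
  unfold PS
  have h1 : (2 : ℚ) ^ (2 * (i : ℤ) + 2 * j - 1) =
      2 ^ (2 * (i : ℤ) - 2 * w) * 2 ^ (4 * (w : ℤ) - 1) * 2 ^ (2 * (j : ℤ) - 2 * w) := by
    rw [← zpow_add₀ (by norm_num : (2 : ℚ) ≠ 0), ← zpow_add₀ (by norm_num : (2 : ℚ) ≠ 0)]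
    congr 1
    ring
  rw [h1]
  ring

private theorem j4_PPinv (ε : Bool) (κ w : ℕ) :
    VG (4 * (w : ℤ) - 1 - padicValRat 2 (PS ε κ w)) (PP ε κ w)⁻¹ := by
  have h : (PP ε κ w)⁻¹ = 2 ^ (4 * (w : ℤ) - 1) * (PS ε κ w)⁻¹ := by
    unfold PS
    rw [mul_inv, ← mul_assoc, mul_inv_cancel₀ (zpow_ne_zero _ (by norm_num)), one_mul]
  rw [h, sub_eq_add_neg]
  refine (VG_two_zpow _).mul (Or.inr ?_)
  rw [padicValRat.inv]

/-- the binomial coefficient `C(n, 1)` for `n = 86 mod 128` -/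
private theorem j4_vC_one {n : ℕ} (h : n % 128 = 86) : vC n 1 = 1 := by
  obtain ⟨q, hq⟩ : ∃ q, n = 2 * (64 * q + 43) := ⟨n / 128, by omega⟩
  unfold vC
  rw [Nat.choose_one_right, hq, padicValNat.mul (by norm_num) (by omega),
    padicValNat.self (by norm_num), padicValNat.eq_zero_of_not_dvd (by omega)]

theorem near_PX (ε : Bool) (κ b : ℕ) (hA : PAdm ε κ b) (i j : ℕ) (hj : 1 ≤ j) (hjb : j < b)
    (hbi : b ≤ i) (hi : 3 * i < κ) :
    VG 1 (2 ^ (2 * (i : ℤ) - 2 * j) * ∑ w ∈ Finset.Ico j b, LL ε κ i w * LI ε κ w j) := by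
  have hA' := hA
  obtain ⟨hb, h6, hG, -⟩ := hA
  rw [Finset.mul_sum]
  refine VG_sum _ _ _ fun w hw => ?_
  rw [Finset.mem_Ico] at hw
  obtain ⟨a, rfl⟩ : ∃ a, i = b + a := ⟨i - b, by omega⟩
  obtain ⟨e, he⟩ : ∃ e, b = w + e := ⟨b - w, by omega⟩
  obtain ⟨t, ht⟩ : ∃ t, w = j + t := ⟨w - j, by omega⟩
  have h1 := VG_LL ε κ (b + a) w (by omega) (by omega) hi
  have h2 := VG_LI ε κ w j hj (by omega) (by omega)
  rw [show b + a - w = a + e by omega] at h1
  rw [show w - j = t by omega] at h2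
  by_cases ha : a = 0
  · subst ha
    rw [zero_add] at h1
    by_cases hx : e = 1 ∧ t = 1
    · obtain ⟨rfl, rfl⟩ := hx
      have hmod := hG.1
      rw [j4_vC_one (by omega)] at h1
      have h4 := hA'.li1 (by omega)
      rw [show b - 1 = w by omega, show b - 2 = j by omega] at h4
      have h5 := ((VG_two_zpow 2).mul h1).mul h4
      have e1 : (2 : ℚ) ^ (2 * ((b + 0 : ℕ) : ℤ) - 2 * j) * (LL ε κ (b + 0) w * LI ε κ w j) =
          (2 : ℚ) ^ (2 : ℤ) * LL ε κ (b + 0) w * (2 ^ 2 * LI ε κ w j) := by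
        rw [show 2 * ((b + 0 : ℕ) : ℤ) - 2 * j = 2 + 2 by push_cast; omega,
          zpow_add₀ (by norm_num : (2 : ℚ) ≠ 0)]
        norm_num
        ring
      rw [e1]
      refine h5.mono ?_
      norm_num
    · have h3 := ineq_PX0 (κ - 2 * b) hG (t + e) e (by omega) (by omega) (by omega)
      rw [show κ - 2 * b + 2 * e - 1 = κ - 2 * w - 1 by omega,
        show κ - 2 * b + (t + e) + e = κ - w - j by omega,
        show t + e - e = t by omega] at h3
      refine ((VG_two_zpow _).mul (h1.mul h2)).mono ?_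
      push_cast
      omega
  · have h3 := ineq_X 85 (κ - 2 * b) (by norm_num) hG a (t + e) e (by omega) (by omega) (by omega)
      (by omega)
    rw [show κ - 2 * b + 2 * e - 1 = κ - 2 * w - 1 by omega,
      show κ - 2 * b + (t + e) + e = κ - w - j by omega,
      show t + e - e = t by omega] at h3
    refine ((VG_two_zpow _).mul (h1.mul h2)).mono ?_
    push_cast
    omega

theorem near_PY (ε : Bool) (κ b : ℕ) (hA : PAdm ε κ b) (i j : ℕ) (hi : 1 ≤ i) (hib : i < b)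
    (hbj : b ≤ j) (hj : 3 * j < κ) :
    VG 0 (2 ^ (2 * (j : ℤ) - 2 * i) * ∑ w ∈ Finset.Ico i b, UI ε κ i w * UU ε κ w j) := by
  obtain ⟨hb, h6, hG, -⟩ := hA
  rw [Finset.mul_sum]
  refine VG_sum _ _ _ fun w hw => ?_
  rw [Finset.mem_Ico] at hw
  obtain ⟨a, rfl⟩ : ∃ a, j = b + a := ⟨j - b, by omega⟩
  obtain ⟨e, he⟩ : ∃ e, b = w + e := ⟨b - w, by omega⟩
  obtain ⟨t, ht⟩ : ∃ t, w = i + t := ⟨w - i, by omega⟩
  have h1 := VG_UU ε κ w (b + a) (by omega) (by omega) hj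
  have h2 := VG_UI ε κ i w hi (by omega) (by omega)
  rw [show b + a - w = a + e by omega] at h1
  rw [show w - i = t by omega] at h2
  by_cases ha : a = 0
  · subst ha
    rw [zero_add] at h1
    have h3 := ineq_PY0 (κ - 2 * b) hG (t + e) e (by omega) (by omega)
    rw [show κ - 2 * b + 2 * e - 1 = κ - 2 * w - 1 by omega,
      show κ - 2 * b + (t + e) + e = κ - w - i by omega,
      show t + e - e = t by omega] at h3
    refine ((VG_two_zpow _).mul (h2.mul h1)).mono ?_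
    push_cast
    omega
  · have h3 := ineq_X 85 (κ - 2 * b) (by norm_num) hG a (t + e) e (by omega) (by omega) (by omega)
      (by omega)
    rw [show κ - 2 * b + 2 * e - 1 = κ - 2 * w - 1 by omega,
      show κ - 2 * b + (t + e) + e = κ - w - i by omega,
      show t + e - e = t by omega] at h3
    refine ((VG_two_zpow _).mul (h2.mul h1)).mono ?_
    push_cast
    omega

theorem near_PG (ε : Bool) (κ b : ℕ) (hA : PAdm ε κ b) (c d : ℕ) (hc : 1 ≤ c) (hcb : c < b)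
    (hd : 1 ≤ d) (hdb : d < b) :
    VG (1 - padicValRat 2 (PS ε κ b)) (2 ^ (1 - 2 * (c : ℤ) - 2 * d) *
      ∑ w ∈ Finset.Ico (max c d) b, UI ε κ c w * (PP ε κ w)⁻¹ * LI ε κ w d) := by
  have hA' := hA
  obtain ⟨hb, h6, hG, -⟩ := hA
  rw [Finset.mul_sum]
  refine VG_sum _ _ _ fun w hw => ?_
  rw [Finset.mem_Ico, max_le_iff] at hw
  obtain ⟨⟨hcw, hdw⟩, hwb⟩ := hw
  obtain ⟨e, he⟩ : ∃ e, b = w + e := ⟨b - w, by omega⟩
  obtain ⟨c', hc'⟩ : ∃ c', b = c + c' := ⟨b - c, by omega⟩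
  obtain ⟨d', hd'⟩ : ∃ d', b = d + d' := ⟨b - d, by omega⟩
  have h1 := VG_UI ε κ c w hc hcw (by omega)
  have h2 := VG_LI ε κ w d hd hdw (by omega)
  have h4 := j4_PPinv ε κ w
  have h5 := padicVal_PS ε κ w e (by omega) (by omega)
  rw [← he] at h5
  have key : vC (κ - 2 * w) (2 * e) + vC (κ - 2 * w - 1) (2 * e) + vC (κ - w - c) (w - c) +
      vC (κ - w - d) (w - d) + 2 * vf (2 * e) + 1 ≤
      2 * (w - c) + 2 * (w - d) + 2 * e + 2 * vf (3 * e) + eta ε κ w e := by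
    by_cases hne : e = 1 ∧ c' = 2 ∧ d' = 2
    · have h7 := ineq_P 85 (κ - 2 * b) (by norm_num) hG c' d' e (by omega) (by omega)
      rw [show κ - 2 * b + 2 * e = κ - 2 * w by omega,
        show κ - 2 * b + c' + e = κ - w - c by omega,
        show κ - 2 * b + d' + e = κ - w - d by omega,
        show c' - e = w - c by omega, show d' - e = w - d by omega] at h7
      have h8 := hA'.eta_pred (by omega)
      rw [show b - 1 = w by omega] at h8
      have h9 : eta ε κ w e = eta ε κ w 1 := by rw [hne.1]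
      rw [h9]
      omega
    · have h7 := ineq_PG (κ - 2 * b) hG c' d' e (by omega) (by omega) (by omega) hne
      rw [show κ - 2 * b + 2 * e = κ - 2 * w by omega,
        show κ - 2 * b + c' + e = κ - w - c by omega,
        show κ - 2 * b + d' + e = κ - w - d by omega,
        show c' - e = w - c by omega, show d' - e = w - d by omega] at h7
      omega
  refine ((VG_two_zpow _).mul ((h1.mul h4).mul h2)).mono ?_
  have h8 : ((w - c : ℕ) : ℤ) = (w : ℤ) - c := by omega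
  have h9 : ((w - d : ℕ) : ℤ) = (w : ℤ) - d := by omega
  zify at key
  rw [h8, h9] at key
  linarith [h5, key]

/-- scaled lower factor in the column `b` -/
private theorem j4_LLb {ε : Bool} {κ b : ℕ} (hA : PAdm ε κ b) (i : ℕ) (hi : b ≤ i)
    (hi3 : 3 * i < κ) : VG 0 (2 ^ (2 * (i : ℤ) - 2 * b) * LL ε κ i b) ∧
      (b + 2 ≤ i → VG 1 (2 ^ (2 * (i : ℤ) - 2 * b) * LL ε κ i b)) := by
  obtain ⟨hb, h6, hG, -⟩ := hA
  have h1 := VG_LL ε κ i b hb hi hi3
  have h2 := ineq_PQ0 (κ - 2 * b) hG (i - b) (by omega)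
  constructor
  · refine ((VG_two_zpow _).mul h1).mono ?_
    have := h2.1
    omega
  · intro h
    refine ((VG_two_zpow _).mul h1).mono ?_
    have := h2.2 (by omega)
    omega

private theorem j4_UUb {ε : Bool} {κ b : ℕ} (hA : PAdm ε κ b) (j : ℕ) (hj : b ≤ j)
    (hj3 : 3 * j < κ) : VG 0 (2 ^ (2 * (j : ℤ) - 2 * b) * UU ε κ b j) ∧
      (b + 2 ≤ j → VG 1 (2 ^ (2 * (j : ℤ) - 2 * b) * UU ε κ b j)) := by
  obtain ⟨hb, h6, hG, -⟩ := hA
  have h1 := VG_UU ε κ b j hb hj hj3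
  have h2 := ineq_PQ0 (κ - 2 * b) hG (j - b) (by omega)
  constructor
  · refine ((VG_two_zpow _).mul h1).mono ?_
    have := h2.1
    omega
  · intro h
    refine ((VG_two_zpow _).mul h1).mono ?_
    have := h2.2 (by omega)
    omega

/-- scaled lower factor in the column `b + 1` -/
private theorem j4_LLb1 {ε : Bool} {κ b : ℕ} (hA : PAdm ε κ b) (i : ℕ) (hi : b + 1 ≤ i)
    (hi3 : 3 * i < κ) : VG 0 (2 ^ (2 * (i : ℤ) - 2 * ((b + 1 : ℕ) : ℤ)) * LL ε κ i (b + 1)) ∧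
      (b + 2 ≤ i → VG 1 (2 ^ (2 * (i : ℤ) - 2 * ((b + 1 : ℕ) : ℤ)) * LL ε κ i (b + 1))) := by
  obtain ⟨hb, h6, hG, -⟩ := hA
  have h1 := VG_LL ε κ i (b + 1) (by omega) hi hi3
  have h2 := ineq_PQ1 (κ - 2 * b) hG (i - (b + 1)) (by omega)
  rw [show κ - 2 * b - 3 = κ - 2 * (b + 1) - 1 by omega] at h2
  constructor
  · refine ((VG_two_zpow _).mul h1).mono ?_
    have := h2.1
    omega
  · intro h
    refine ((VG_two_zpow _).mul h1).mono ?_
    have := h2.2 (by omega)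
    omega

private theorem j4_UUb1 {ε : Bool} {κ b : ℕ} (hA : PAdm ε κ b) (j : ℕ) (hj : b + 1 ≤ j)
    (hj3 : 3 * j < κ) : VG 0 (2 ^ (2 * (j : ℤ) - 2 * ((b + 1 : ℕ) : ℤ)) * UU ε κ (b + 1) j) ∧
      (b + 2 ≤ j → VG 1 (2 ^ (2 * (j : ℤ) - 2 * ((b + 1 : ℕ) : ℤ)) * UU ε κ (b + 1) j)) := by
  obtain ⟨hb, h6, hG, -⟩ := hA
  have h1 := VG_UU ε κ (b + 1) j (by omega) hj hj3
  have h2 := ineq_PQ1 (κ - 2 * b) hG (j - (b + 1)) (by omega)
  rw [show κ - 2 * b - 3 = κ - 2 * (b + 1) - 1 by omega] at h2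
  constructor
  · refine ((VG_two_zpow _).mul h1).mono ?_
    have := h2.1
    omega
  · intro h
    refine ((VG_two_zpow _).mul h1).mono ?_
    have := h2.2 (by omega)
    omega

private theorem j4_LL_un {ε : Bool} {κ b : ℕ} (hA : PAdm ε κ b) (i : ℕ)
    (hi : i = b ∨ i = b + 1) : Un (2 ^ (2 * (i : ℤ) - 2 * b) * LL ε κ i b) := by
  have h6 := hA.2.1
  rcases hi with rfl | rfl
  · rw [j4_LL_one ε κ _ (by omega), sub_self, zpow_zero, one_mul]
    exact j4_Un_one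
  · have h1 := hA.ll1
    have e : (2 * ((b + 1 : ℕ) : ℤ) - 2 * b) = 2 := by push_cast; ring
    rw [e]
    exact_mod_cast h1

private theorem j4_UU_un {ε : Bool} {κ b : ℕ} (hA : PAdm ε κ b) (j : ℕ)
    (hj : j = b ∨ j = b + 1) : Un (2 ^ (2 * (j : ℤ) - 2 * b) * UU ε κ b j) := by
  have h6 := hA.2.1
  rcases hj with rfl | rfl
  · rw [j4_UU_one ε κ _ (by omega), sub_self, zpow_zero, one_mul]
    exact j4_Un_one
  · have h1 := hA.uu1
    have e : (2 * ((b + 1 : ℕ) : ℤ) - 2 * b) = 2 := by push_cast; ring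
    rw [e]
    exact_mod_cast h1

theorem near_PS (ε : Bool) (κ b : ℕ) (hA : PAdm ε κ b) (i j : ℕ) (hi : b ≤ i) (hj : b ≤ j)
    (hi3 : 3 * i < κ) (hj3 : 3 * j < κ) (hne : ¬ (i ≤ b + 1 ∧ j ≤ b + 1 ∧ i + j ≤ 2 * b + 1)) :
    VG (padicValRat 2 (PS ε κ b) + 1) (2 ^ (2 * (i : ℤ) + 2 * j - 1) *
      ∑ w ∈ Finset.Icc b (min i j), LL ε κ i w * PP ε κ w * UU ε κ w j) := by
  have hA' := hA
  have hbe := hA.slope_eq
  obtain ⟨hb, h6, hG, -⟩ := hA
  by_cases hij : i = b + 1 ∧ j = b + 1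
  · obtain ⟨rfl, rfl⟩ := hij
    have hI : Finset.Icc b (min (b + 1) (b + 1)) = {b, b + 1} := by
      ext w
      simp only [Finset.mem_Icc, Finset.mem_insert, Finset.mem_singleton, min_self]
      omega
    rw [hI, Finset.sum_pair (by omega), mul_add, j4_term, j4_term, j4_LL_one ε κ (b + 1) hi3,
      j4_UU_one ε κ (b + 1) hi3]
    have hL := j4_LL_un hA' (b + 1) (Or.inr rfl)
    have hU := j4_UU_un hA' (b + 1) (Or.inr rfl)
    have hP := j4_PS ε κ b hb (by omega)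
    have hP' := j4_PS ε κ (b + 1) (by omega) hi3
    rw [hbe] at hP'
    have h1 := j4_add (j4_Un_mul (j4_Un_mul hL hP) hU) hP'
    have h2 := (VG_two_zpow (padicValRat 2 (PS ε κ b))).mul h1
    have hz : (2 : ℚ) ^ (padicValRat 2 (PS ε κ b)) * 2 ^ (-padicValRat 2 (PS ε κ b)) = 1 := by
      rw [← zpow_add₀ (by norm_num : (2 : ℚ) ≠ 0), add_neg_cancel, zpow_zero]
    refine (Eq.mp ?_ h2)
    congr 1
    rw [sub_self, zpow_zero]
    linear_combination (2 ^ (2 * ((b + 1 : ℕ) : ℤ) - 2 * b) * LL ε κ (b + 1) b * PS ε κ b *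
      (2 ^ (2 * ((b + 1 : ℕ) : ℤ) - 2 * b) * UU ε κ b (b + 1)) + PS ε κ (b + 1)) * hz
  · rw [Finset.mul_sum]
    refine VG_sum _ _ _ fun w hw => ?_
    rw [Finset.mem_Icc, le_min_iff] at hw
    obtain ⟨hbw, hwi, hwj⟩ := hw
    rw [j4_term]
    have hsw : VG (padicValRat 2 (PS ε κ w)) (PS ε κ w) := Or.inr le_rfl
    by_cases hw2 : b + 2 ≤ w
    · obtain ⟨e, rfl⟩ : ∃ e, w = b + e := ⟨w - b, by omega⟩
      have h1 := VG_LL ε κ i (b + e) (by omega) hwi hi3
      have h2 := VG_UU ε κ (b + e) j (by omega) hwj hj3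
      have h5 := padicVal_PS ε κ b e hb (by omega)
      have h7 := ineq_S 85 (κ - 2 * b) (by norm_num) hG (i - b) (j - b) e (eta ε κ b e) (by omega)
        (by omega) (by omega) (by omega) (by omega) (by omega)
      rw [show κ - 2 * b - 2 * e - 1 = κ - 2 * (b + e) - 1 by omega,
        show i - b - e = i - (b + e) by omega, show j - b - e = j - (b + e) by omega] at h7
      refine (((((VG_two_zpow _).mul h1).mul hsw)).mul ((VG_two_zpow _).mul h2)).mono ?_
      have h8 : ((i - (b + e) : ℕ) : ℤ) = (i : ℤ) - b - e := by omega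
      have h9 : ((j - (b + e) : ℕ) : ℤ) = (j : ℤ) - b - e := by omega
      zify at h7
      rw [h8, h9] at h7
      push_cast
      linarith [h5, h7]
    · -- one of the indices is at least `b + 2`
      have hcase : b + 2 ≤ i ∨ b + 2 ≤ j := by omega
      rcases (by omega : w = b ∨ w = b + 1) with rfl | rfl
      · have hL := j4_LLb hA' i hi hi3
        have hU := j4_UUb hA' j hj hj3
        rcases hcase with h | h
        · refine (((hL.2 h).mul hsw).mul hU.1).mono ?_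
          linarith
        · refine ((hL.1.mul hsw).mul (hU.2 h)).mono ?_
          linarith
      · have hL := j4_LLb1 hA' i hwi hi3
        have hU := j4_UUb1 hA' j hwj hj3
        rcases hcase with h | h
        · refine (((hL.2 h).mul hsw).mul hU.1).mono ?_
          rw [hbe]
          linarith
        · refine ((hL.1.mul hsw).mul (hU.2 h)).mono ?_
          rw [hbe]
          linarith

theorem near_PS1 (ε : Bool) (κ b : ℕ) (hA : PAdm ε κ b) (i j : ℕ) (hi : b ≤ i) (hj : b ≤ j)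
    (hi1 : i ≤ b + 1) (hj1 : j ≤ b + 1) (hij : i + j ≤ 2 * b + 1) :
    Un (2 ^ (-padicValRat 2 (PS ε κ b)) * (2 ^ (2 * (i : ℤ) + 2 * j - 1) *
      ∑ w ∈ Finset.Icc b (min i j), LL ε κ i w * PP ε κ w * UU ε κ w j)) := by
  have hb := hA.1
  have h6 := hA.2.1
  have hmin : min i j = b := by
    rcases (by omega : i = b ∨ j = b) with hh | hh
    · rw [hh]; exact min_eq_left hj
    · rw [hh]; exact min_eq_right hi
  rw [hmin, Finset.Icc_self, Finset.sum_singleton, j4_term]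
  have hL := j4_LL_un hA i (by omega)
  have hU := j4_UU_un hA j (by omega)
  have hP := j4_PS ε κ b hb (by omega)
  have h1 := j4_Un_mul (j4_Un_mul hL hP) hU
  have e : (2 : ℚ) ^ (-padicValRat 2 (PS ε κ b)) *
      ((2 ^ (2 * (i : ℤ) - 2 * b) * LL ε κ i b) * PS ε κ b *
        (2 ^ (2 * (j : ℤ) - 2 * b) * UU ε κ b j)) =
      (2 ^ (2 * (i : ℤ) - 2 * b) * LL ε κ i b) *
        (2 ^ (-padicValRat 2 (PS ε κ b)) * PS ε κ b) *
        (2 ^ (2 * (j : ℤ) - 2 * b) * UU ε κ b j) := by ring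
  rw [e]
  exact h1

end Pool.Agent.Helper5.MD
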