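import Pool.Agent.Helper5.MD.D8Crit
import Pool.Agent.Helper5.MD4.J4Near

/-!
# MS-J5 : admissible pair indices satisfy the pair criterion

Adaptation of `crit_of_adm` (`MD/D8Crit.lean`): inner block of size `n = b - 1` (one based indices `< b`), slope `s = v2 (PS b)`, near estimates of MS-J4 for `3 i < κ`, `3 j < κ`, and the crude bounds
(`6 (b + 1) ≤ κ`, `κ ≥ 800`) otherwise.  For `b = 1` the block is empty.
-/

open scoped Nat

namespace Pool.Agent.Helper5.MD

open D8

theorem pairCrit_of_padm (ε : Bool) (κ b : ℕ) (hA : PAdm ε κ b) (hκ : 800 ≤ κ) :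
    PairCrit (κ - 1) (b - 1) (MAT ε κ) (padicValRat 2 (PS ε κ b)) := by
  obtain ⟨n, rfl⟩ : ∃ n, b = n + 1 := ⟨b - 1, by have := hA.1; omega⟩
  rw [Nat.add_sub_cancel]
  have hn6 : 6 * (n + 2) ≤ κ := hA.2.1
  have h3 : 3 * n < κ := by omega
  have hnN2 : n + 2 ≤ κ - 1 := by omega
  have hnN : n ≤ κ - 1 := by omega
  have hIco : ∀ a : ℕ, Finset.Ico a (n + 1) = Finset.Icc a n := by
    intro a
    ext w
    rw [Finset.mem_Ico, Finset.mem_Icc]
    omega
  have hlog := log_bound κ hκ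
  have hlog' : (3 * (13 * (Nat.log 2 κ : ℤ) + 26)) ≤ κ := by exact_mod_cast hlog
  have hn6' : 6 * ((n : ℤ) + 2) ≤ κ := by exact_mod_cast hn6
  have hS : ∀ c d : ℕ, 1 ≤ c → c ≤ n → 1 ≤ d → d ≤ n →
      VG (-(8 * Nat.log 2 κ + 16 : ℤ)) (S ε κ n c d) := fun c d h1 h2 h4 h5 =>
    crude_G ε κ n h3 c d h1 h2 h4 h5
  have hSch : ∀ i j : Fin (κ - 1), (MAT ε κ i j - ∑ c : Fin (κ - 1), ∑ d : Fin (κ - 1),
        if c.val < n ∧ d.val < n then MAT ε κ i c *
        (Matrix.of fun c d : Fin (κ - 1) =>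
          (2 : ℚ) ^ (1 - 2 * ((c.val + 1 : ℕ) : ℤ) - 2 * ((d.val + 1 : ℕ) : ℤ)) *
          S ε κ n (c.val + 1) (d.val + 1)) c d * MAT ε κ d j else 0) =
        2 ^ (2 * ((i.val + 1 : ℕ) : ℤ) + 2 * ((j.val + 1 : ℕ) : ℤ) - 1) *
          (bb ε κ (i.val + 1) (j.val + 1) - ∑ c ∈ Finset.Icc 1 n, ∑ d ∈ Finset.Icc 1 n,
          bb ε κ (i.val + 1) c * S ε κ n c d * bb ε κ d (j.val + 1)) := by
    intro i j
    rw [mul_sub, Finset.mul_sum]
    congr 1
    rw [← sum_fin (κ - 1) n hnN]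
    refine Finset.sum_congr rfl fun c _ => ?_
    by_cases hc : c.val < n
    · rw [if_pos hc, Finset.mul_sum, ← sum_fin (κ - 1) n hnN]
      refine Finset.sum_congr rfl fun d _ => ?_
      by_cases hd : d.val < n
      · rw [if_pos ⟨hc, hd⟩, if_pos hd]
        simp only [MAT, MM, Matrix.of_apply]
        have key : ∀ (a b c' x y z : ℚ), a * x * (b * y) * (c' * z) = (a * b * c') * (x * y * z) :=
          fun a b c' x y z => by ring
        rw [key, two_zpow_mul, two_zpow_mul]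
        congr 2
        ring
      · rw [if_neg (fun h => hd h.2), if_neg hd]
    · rw [if_neg hc]
      refine Finset.sum_eq_zero fun d _ => ?_
      rw [if_neg (fun h => hc h.1)]
  have hbot : ∀ i j : ℕ, n ≤ i → n ≤ j → 3 * (i + 1) < κ → 3 * (j + 1) < κ →
      bb ε κ (i + 1) (j + 1) - ∑ c ∈ Finset.Icc 1 n, ∑ d ∈ Finset.Icc 1 n,
          bb ε κ (i + 1) c * S ε κ n c d * bb ε κ d (j + 1) =
        ∑ w ∈ Finset.Icc (n + 1) (min (i + 1) (j + 1)),
          LL ε κ (i + 1) w * PP ε κ w * UU ε κ w (j + 1) := by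
    intro i j hi hj hi3 hj3
    rw [row_S_col ε κ n h3 _ _ (by omega) hi3 (by omega) hj3,
      ← LL_PP_UU ε κ (i + 1) (j + 1) (by omega) (by omega) hi3 hj3]
    have e3 : ∀ F : ℕ → ℚ, ∑ w ∈ Finset.Icc 1 (min (i + 1) (j + 1)), F w =
        ∑ w ∈ Finset.Icc 1 n, F w +
          ∑ w ∈ Finset.Icc (n + 1) (min (i + 1) (j + 1)), F w := by
      intro F
      rw [← Finset.sum_union]
      · congr 1
        ext w
        simp only [Finset.mem_Icc, Finset.mem_union]
        omega
      · rw [Finset.disjoint_left]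
        intro w hw hw'
        rw [Finset.mem_Icc] at hw hw'
        omega
    rw [e3, add_sub_cancel_left]
  refine ⟨hnN2, Matrix.of fun c d => 2 ^ (1 - 2 * ((c.val + 1 : ℕ) : ℤ) - 2 * ((d.val + 1 : ℕ) : ℤ)) *
    S ε κ n (c.val + 1) (d.val + 1), ?_, ?_, ?_, ?_, ?_, ?_⟩
  · intro i j hi hj
    have e1 : (∑ c : Fin (κ - 1), if c.val < n then MAT ε κ i c *
        (Matrix.of fun c d : Fin (κ - 1) =>
          (2 : ℚ) ^ (1 - 2 * ((c.val + 1 : ℕ) : ℤ) - 2 * ((d.val + 1 : ℕ) : ℤ)) *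
          S ε κ n (c.val + 1) (d.val + 1)) c j else 0) =
        ∑ c ∈ Finset.Icc 1 n, 2 ^ (2 * ((i.val + 1 : ℕ) : ℤ) - 2 * ((j.val + 1 : ℕ) : ℤ)) *
          (bb ε κ (i.val + 1) c * S ε κ n c (j.val + 1)) := by
      rw [← sum_fin (κ - 1) n hnN]
      refine Finset.sum_congr rfl fun c _ => ?_
      by_cases hc : c.val < n
      · rw [if_pos hc, if_pos hc]
        simp only [MAT, MM, Matrix.of_apply]
        rw [mul_mul_mul_comm, two_zpow_mul]
        congr 2
        ring
      · rw [if_neg hc, if_neg hc]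
    rw [e1, ← Finset.mul_sum, row_S ε κ n h3 _ _ (by omega) (by omega) (by omega) (by omega),
      LL_LI ε κ n h3 _ _ (by omega) (by omega) (by omega) (by omega)]
    by_cases hij : i = j
    · subst hij
      simp
    · have : i.val + 1 ≠ j.val + 1 := fun h => hij (Fin.ext (by omega))
      rw [if_neg this, if_neg hij, mul_zero]
  · intro i j hi hj
    have := near_PG ε κ (n + 1) hA (i.val + 1) (j.val + 1) (by omega) (by omega) (by omega)
      (by omega)
    rw [hIco] at this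
    exact this
  · intro i j hi hj
    have e1 : (∑ c : Fin (κ - 1), if c.val < n then MAT ε κ i c *
        (Matrix.of fun c d : Fin (κ - 1) =>
          (2 : ℚ) ^ (1 - 2 * ((c.val + 1 : ℕ) : ℤ) - 2 * ((d.val + 1 : ℕ) : ℤ)) *
          S ε κ n (c.val + 1) (d.val + 1)) c j else 0) =
        ∑ c ∈ Finset.Icc 1 n, 2 ^ (2 * ((i.val + 1 : ℕ) : ℤ) - 2 * ((j.val + 1 : ℕ) : ℤ)) *
          (bb ε κ (i.val + 1) c * S ε κ n c (j.val + 1)) := by
      rw [← sum_fin (κ - 1) n hnN]
      refine Finset.sum_congr rfl fun c _ => ?_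
      by_cases hc : c.val < n
      · rw [if_pos hc, if_pos hc]
        simp only [MAT, MM, Matrix.of_apply]
        rw [mul_mul_mul_comm, two_zpow_mul]
        congr 2
        ring
      · rw [if_neg hc, if_neg hc]
    rw [e1, ← Finset.mul_sum]
    by_cases hi3 : 3 * (i.val + 1) < κ
    · rw [row_S ε κ n h3 _ _ (by omega) hi3 (by omega) (by omega)]
      have e2 : ∑ w ∈ Finset.Icc 1 n, LL ε κ (i.val + 1) w * LI ε κ w (j.val + 1) =
          ∑ w ∈ Finset.Icc (j.val + 1) n, LL ε κ (i.val + 1) w * LI ε κ w (j.val + 1) := by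
        symm
        refine sum_eq_of_sub _ (Finset.Icc_subset_Icc (by omega) le_rfl) ?_
        intro w hw hw'
        simp only [Finset.mem_Icc, not_and, not_le] at hw hw'
        have h : w < j.val + 1 := by
          by_contra hcon
          have := hw' (not_lt.mp hcon)
          omega
        rw [LI_zero _ _ _ _ h, mul_zero]
      rw [e2]
      have h7 := near_PX ε κ (n + 1) hA (i.val + 1) (j.val + 1) (by omega) (by omega) (by omega) hi3
      rw [hIco] at h7
      exact h7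
    · have h1 : VG (-(8 * Nat.log 2 κ + 16 : ℤ))
          (∑ c ∈ Finset.Icc 1 n, bb ε κ (i.val + 1) c * S ε κ n c (j.val + 1)) := by
        refine VG_sum _ _ _ fun c hc => ?_
        rw [Finset.mem_Icc] at hc
        have := (VG_bb ε κ (i.val + 1) c).mul (hS c (j.val + 1) hc.1 hc.2 (by omega) (by omega))
        simpa using this
      refine VG.mono ((VG_two_zpow _).mul h1) ?_
      have hi3' : (κ : ℤ) ≤ 3 * ((i.val + 1 : ℕ) : ℤ) := by exact_mod_cast not_lt.mp hi3
      have hj' : ((j.val + 1 : ℕ) : ℤ) ≤ n := by exact_mod_cast hj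
      omega
  · intro i j hi hj
    have e1 : (∑ c : Fin (κ - 1), if c.val < n then
        (Matrix.of fun c d : Fin (κ - 1) =>
          (2 : ℚ) ^ (1 - 2 * ((c.val + 1 : ℕ) : ℤ) - 2 * ((d.val + 1 : ℕ) : ℤ)) *
          S ε κ n (c.val + 1) (d.val + 1)) i c * MAT ε κ c j else 0) =
        ∑ c ∈ Finset.Icc 1 n, 2 ^ (2 * ((j.val + 1 : ℕ) : ℤ) - 2 * ((i.val + 1 : ℕ) : ℤ)) *
          (S ε κ n (i.val + 1) c * bb ε κ c (j.val + 1)) := by
      rw [← sum_fin (κ - 1) n hnN]
      refine Finset.sum_congr rfl fun c _ => ?_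
      by_cases hc : c.val < n
      · rw [if_pos hc, if_pos hc]
        simp only [MAT, MM, Matrix.of_apply]
        rw [mul_mul_mul_comm, two_zpow_mul]
        congr 2
        ring
      · rw [if_neg hc, if_neg hc]
    rw [e1, ← Finset.mul_sum]
    by_cases hj3 : 3 * (j.val + 1) < κ
    · rw [S_col ε κ n h3 _ _ (by omega) (by omega) hj3]
      have e2 : ∑ w ∈ Finset.Icc 1 n, UI ε κ (i.val + 1) w * UU ε κ w (j.val + 1) =
          ∑ w ∈ Finset.Icc (i.val + 1) n, UI ε κ (i.val + 1) w * UU ε κ w (j.val + 1) := by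
        symm
        refine sum_eq_of_sub _ (Finset.Icc_subset_Icc (by omega) le_rfl) ?_
        intro w hw hw'
        simp only [Finset.mem_Icc, not_and, not_le] at hw hw'
        have h : w < i.val + 1 := by
          by_contra hcon
          have := hw' (not_lt.mp hcon)
          omega
        rw [UI_zero _ _ _ _ h, zero_mul]
      rw [e2]
      have h7 := near_PY ε κ (n + 1) hA (i.val + 1) (j.val + 1) (by omega) (by omega) (by omega) hj3
      rw [hIco] at h7
      exact h7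
    · have h1 : VG (-(8 * Nat.log 2 κ + 16 : ℤ))
          (∑ c ∈ Finset.Icc 1 n, S ε κ n (i.val + 1) c * bb ε κ c (j.val + 1)) := by
        refine VG_sum _ _ _ fun c hc => ?_
        rw [Finset.mem_Icc] at hc
        have := (hS (i.val + 1) c (by omega) (by omega) hc.1 hc.2).mul (VG_bb ε κ c (j.val + 1))
        simpa using this
      refine VG.mono ((VG_two_zpow _).mul h1) ?_
      have hj3' : (κ : ℤ) ≤ 3 * ((j.val + 1 : ℕ) : ℤ) := by exact_mod_cast not_lt.mp hj3
      have hi' : ((i.val + 1 : ℕ) : ℤ) ≤ n := by exact_mod_cast hi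
      omega
  · intro i j hi hj hne
    rw [hSch]
    by_cases hb : 3 * (i.val + 1) < κ ∧ 3 * (j.val + 1) < κ
    · obtain ⟨hi3, hj3⟩ := hb
      rw [hbot i.val j.val hi hj hi3 hj3]
      exact near_PS ε κ (n + 1) hA (i.val + 1) (j.val + 1) (by omega) (by omega) hi3 hj3
        (by omega)
    · have hPS := PS_upper ε κ (n + 1) (by omega) (by omega)
      have h1 : VG (-(8 * Nat.log 2 κ + 16 : ℤ))
          (bb ε κ (i.val + 1) (j.val + 1) - ∑ c ∈ Finset.Icc 1 n, ∑ d ∈ Finset.Icc 1 n,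
          bb ε κ (i.val + 1) c * S ε κ n c d * bb ε κ d (j.val + 1)) := by
        refine VG.sub ((VG_bb ε κ _ _).mono (by omega)) ?_
        refine VG_sum _ _ _ fun c hc => VG_sum _ _ _ fun d hd => ?_
        rw [Finset.mem_Icc] at hc hd
        have := ((VG_bb ε κ (i.val + 1) c).mul (hS c d hc.1 hc.2 hd.1 hd.2)).mul
          (VG_bb ε κ d (j.val + 1))
        simpa using this
      refine VG.mono ((VG_two_zpow _).mul h1) ?_
      have hi' : (n : ℤ) + 1 ≤ ((i.val + 1 : ℕ) : ℤ) := by exact_mod_cast Nat.succ_le_succ hi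
      have hj' : (n : ℤ) + 1 ≤ ((j.val + 1 : ℕ) : ℤ) := by exact_mod_cast Nat.succ_le_succ hj
      have hor : (κ : ℤ) ≤ 3 * ((i.val + 1 : ℕ) : ℤ) ∨ (κ : ℤ) ≤ 3 * ((j.val + 1 : ℕ) : ℤ) := by
        by_cases h : 3 * (i.val + 1) < κ
        · right
          have : ¬ 3 * (j.val + 1) < κ := fun h' => hb ⟨h, h'⟩
          exact_mod_cast not_lt.mp this
        · left
          exact_mod_cast not_lt.mp h
      push_cast at hPS hi' hj' hor ⊢
      rcases hor with h | h <;> omega
  · intro i j hi hj hi1 hj1 hij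
    rw [hSch, hbot i.val j.val hi hj (by omega) (by omega)]
    exact near_PS1 ε κ (n + 1) hA (i.val + 1) (j.val + 1) (by omega) (by omega) (by omega)
      (by omega) (by omega)

end Pool.Agent.Helper5.MD
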