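import Pool.Agent.Helper5.MD.E1Count
import Pool.Agent.Helper5.MD4.J0Defs

/-!
# MS-J6 : many admissible pair indices

The same count as in `MD/E1Count.lean` (`e1_main` for `x0 = 85`; there the number of `n` with `6 n ≤ κ` and `Good 85 (κ - 2 n)` is shown to be `≥ κ/480 - 2`), here `6 (b + 1) ≤ κ` costs at most one index.
-/

open scoped Nat

namespace Pool.Agent.Helper5.MD

/-- the bad `y` (as in `MD/E1Count.lean`) -/
def J6BadY (y : ℕ) : Prop :=
  ∃ m : ℕ, 1 ≤ m ∧ 6 + ((m : ℤ) - y).natAbs ≤ padicValNat 2 m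

lemma j6_local (x0 x y : ℕ) (hx0 : x0 = 84 ∨ x0 = 43 ∨ x0 = 85) (hx : x = 128 * y + x0)
    (h : ¬ Good x0 x) : J6BadY y := by
  have hmod : x % 128 = x0 := by omega
  obtain ⟨m, hm1, hm⟩ : ∃ m : ℕ, 1 ≤ m ∧
      12 + ((m : ℤ) - x).natAbs < 4 * padicValNat 2 m := by
    by_contra hcon
    push Not at hcon
    exact h ⟨hmod, hcon⟩
  have hm0 : m ≠ 0 := by omega
  have hd : 2 ^ padicValNat 2 m ∣ m := pow_padicValNat_dvd
  have hnd : ¬ 2 ^ (padicValNat 2 m + 1) ∣ m := pow_succ_padicValNat_not_dvd hm0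
  rcases Nat.lt_or_ge (padicValNat 2 m) 7 with hv7 | hv7
  · exfalso
    generalize padicValNat 2 m = v at *
    have hv4 : 4 ≤ v := by omega
    interval_cases v
    · norm_num at hd hnd
      rcases hx0 with rfl | rfl | rfl <;> omega
    · norm_num at hd hnd
      rcases hx0 with rfl | rfl | rfl <;> omega
    · norm_num at hd hnd
      rcases hx0 with rfl | rfl | rfl <;> omega
  · obtain ⟨m', rfl⟩ : 128 ∣ m := (pow_dvd_pow 2 hv7).trans hd
    have hm'0 : m' ≠ 0 := by
      rintro rfl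
      simp at hm0
    have hw : padicValNat 2 (128 * m') = 7 + padicValNat 2 m' := by
      rw [show (128 : ℕ) = 2 ^ 7 by norm_num, padicValNat.mul (by positivity) hm'0,
        padicValNat.prime_pow]
    rw [hw] at hm
    refine ⟨m', by omega, ?_⟩
    rcases hx0 with rfl | rfl | rfl <;> (push_cast at hm; omega)

lemma j6_sum (A : ℝ) (N : ℕ) :
    ∑ a ∈ Finset.range N, (A + a) / 2 ^ a = 2 * A + 2 - (2 * A + 2 * N + 2) / 2 ^ N := by
  induction N with
  | zero => simp
  | succ n ih =>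
    rw [Finset.sum_range_succ, ih, pow_succ]
    have : (2 : ℝ) ^ n ≠ 0 := by positivity
    field_simp
    push_cast
    ring

open Classical in
lemma j6_card (Y : ℕ) :
    (((Finset.range (Y + 1)).filter J6BadY).card : ℝ) ≤ Y / 16 + 1 / 32 := by
  have hU : ∀ a : ℕ, (((Finset.range (Y + 1)).filter
      (fun y => 1 ≤ y + a ∧ 2 ^ (6 + a) ∣ y + a)).card) ≤ (Y + a) / 2 ^ (6 + a) := by
    intro a
    rw [← Nat.Ioc_filter_dvd_card_eq_div]
    refine Finset.card_le_card_of_injOn (fun y => y + a) ?_ ?_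
    · intro y hy
      simp only [Finset.coe_filter, Finset.mem_range, Set.mem_setOf_eq, Finset.mem_Ioc] at hy ⊢
      exact ⟨⟨by omega, by omega⟩, hy.2.2⟩
    · intro y _ z _ h
      simpa using h
  have hL : ∀ a : ℕ, (((Finset.range (Y + 1)).filter
      (fun y => 1 + a ≤ y ∧ 2 ^ (6 + a) ∣ y - a)).card) ≤ Y / 2 ^ (6 + a) := by
    intro a
    rw [← Nat.Ioc_filter_dvd_card_eq_div]
    refine Finset.card_le_card_of_injOn (fun y => y - a) ?_ ?_
    · intro y hy
      simp only [Finset.coe_filter, Finset.mem_range, Set.mem_setOf_eq, Finset.mem_Ioc] at hy ⊢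
      exact ⟨⟨by omega, by omega⟩, hy.2.2⟩
    · intro y hy z hz h
      simp only [Finset.coe_filter, Finset.mem_range, Set.mem_setOf_eq] at hy hz h
      omega
  have hsub : (Finset.range (Y + 1)).filter J6BadY ⊆
      (Finset.range (Y + 1)).biUnion (fun a =>
        (Finset.range (Y + 1)).filter (fun y => 1 ≤ y + a ∧ 2 ^ (6 + a) ∣ y + a) ∪
        (Finset.range (Y + 1)).filter (fun y => 1 + a ≤ y ∧ 2 ^ (6 + a) ∣ y - a)) := by
    intro y hy
    rw [Finset.mem_filter, Finset.mem_range] at hy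
    obtain ⟨hyY, m, hm1, hm⟩ := hy
    have hdv : 2 ^ (6 + ((m : ℤ) - y).natAbs) ∣ m :=
      (pow_dvd_pow 2 hm).trans pow_padicValNat_dvd
    generalize ha : ((m : ℤ) - y).natAbs = a at hm hdv
    have hle : 2 ^ (6 + a) ≤ m := Nat.le_of_dvd (by omega) hdv
    have h2 : 2 ^ (6 + a) = 64 * 2 ^ a := by rw [pow_add]; norm_num
    have h3 : a < 2 ^ a := Nat.lt_two_pow_self
    rw [Finset.mem_biUnion]
    refine ⟨a, Finset.mem_range.2 (by omega), ?_⟩
    rw [Finset.mem_union, Finset.mem_filter, Finset.mem_filter, Finset.mem_range]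
    rcases Nat.le_total y m with hym | hym
    · left
      have : m = y + a := by omega
      exact ⟨hyY, by omega, this ▸ hdv⟩
    · right
      have : m = y - a := by omega
      exact ⟨hyY, by omega, this ▸ hdv⟩
  have h1 : ((Finset.range (Y + 1)).filter J6BadY).card ≤
      ∑ a ∈ Finset.range (Y + 1), ((Y + a) / 2 ^ (6 + a) + Y / 2 ^ (6 + a)) := by
    refine (Finset.card_le_card hsub).trans (Finset.card_biUnion_le.trans ?_)
    refine Finset.sum_le_sum fun a _ => ?_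
    exact (Finset.card_union_le _ _).trans (Nat.add_le_add (hU a) (hL a))
  have h2 : (((Finset.range (Y + 1)).filter J6BadY).card : ℝ) ≤
      ∑ a ∈ Finset.range (Y + 1), (2 * (Y : ℝ) + a) / 2 ^ a / 64 := by
    refine (Nat.cast_le.2 h1).trans ?_
    rw [Nat.cast_sum]
    refine Finset.sum_le_sum fun a _ => ?_
    rw [Nat.cast_add]
    have e1 : (((Y + a) / 2 ^ (6 + a) : ℕ) : ℝ) ≤ ((Y : ℝ) + a) / 2 ^ (6 + a) := by
      refine Nat.cast_div_le.trans ?_
      push_cast
      exact le_rfl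
    have e2 : ((Y / 2 ^ (6 + a) : ℕ) : ℝ) ≤ (Y : ℝ) / 2 ^ (6 + a) := by
      refine Nat.cast_div_le.trans ?_
      push_cast
      exact le_rfl
    have e3 : (2 * (Y : ℝ) + a) / 2 ^ a / 64 =
        ((Y : ℝ) + a) / 2 ^ (6 + a) + (Y : ℝ) / 2 ^ (6 + a) := by
      rw [pow_add]
      have : (2 : ℝ) ^ a ≠ 0 := by positivity
      field_simp
      ring
    rw [e3]
    exact add_le_add e1 e2
  rw [← Finset.sum_div, j6_sum] at h2
  have h3 : (0 : ℝ) ≤ (2 * (2 * (Y : ℝ)) + 2 * ((Y + 1 : ℕ) : ℝ) + 2) / 2 ^ (Y + 1) := by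
    positivity
  linarith

open Classical in
lemma j6_main (κ c y0 : ℕ) (hκ : 800 ≤ κ) (hc1 : 1 ≤ c) (hc2 : c ≤ 64)
    (hy : κ = 2 * c + 128 * y0 + 85) :
    (κ : ℝ) / 480 - 3 ≤ (((Finset.range (κ + 1)).filter
      (fun b => 1 ≤ b ∧ 6 * (b + 1) ≤ κ ∧ Good 85 (κ - 2 * b))).card : ℝ) := by
  set K := κ / 384 - 1 with hK
  have hKy : K ≤ y0 := by omega
  set A : ℕ → Prop := fun b => 1 ≤ b ∧ 6 * (b + 1) ≤ κ ∧ Good 85 (κ - 2 * b) with hA
  have h1 : ((Finset.range K).filter (fun i => A (c + 64 * i))).card ≤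
      ((Finset.range (κ + 1)).filter A).card := by
    refine Finset.card_le_card_of_injOn (fun i => c + 64 * i) ?_ ?_
    · intro i hi
      simp only [Finset.coe_filter, Finset.mem_range, Set.mem_setOf_eq] at hi ⊢
      exact ⟨by omega, hi.2⟩
    · intro i _ j _ h
      simp only at h
      omega
  have h2 : ((Finset.range K).filter (fun i => ¬ A (c + 64 * i))).card ≤
      ((Finset.range (κ / 128 + 1)).filter J6BadY).card := by
    refine Finset.card_le_card_of_injOn (fun i => y0 - i) ?_ ?_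
    · intro i hi
      simp only [Finset.coe_filter, Finset.mem_range, Set.mem_setOf_eq] at hi ⊢
      obtain ⟨hiK, hbad⟩ := hi
      refine ⟨by omega, ?_⟩
      apply j6_local 85 (κ - 2 * (c + 64 * i)) (y0 - i) (by tauto) (by omega)
      intro hgood
      apply hbad
      exact ⟨by omega, by omega, hgood⟩
    · intro i hi j hj h
      simp only [Finset.coe_filter, Finset.mem_range, Set.mem_setOf_eq] at hi hj h
      omega
  have h3 : ((Finset.range K).filter (fun i => A (c + 64 * i))).card +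
      ((Finset.range K).filter (fun i => ¬ A (c + 64 * i))).card = K := by
    rw [Finset.card_filter_add_card_filter_not]
    exact Finset.card_range K
  have h4 := j6_card (κ / 128)
  have h5 : ((κ / 128 : ℕ) : ℝ) ≤ (κ : ℝ) / 128 := by
    refine Nat.cast_div_le.trans ?_
    push_cast
    exact le_rfl
  have h6 : (κ : ℝ) / 384 - 2 ≤ (K : ℝ) := by
    have : κ < 384 * K + 768 := by omega
    have : (κ : ℝ) < 384 * K + 768 := by exact_mod_cast this
    linarith
  have h1' : ((((Finset.range K).filter (fun i => A (c + 64 * i))).card : ℕ) : ℝ) ≤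
      (((Finset.range (κ + 1)).filter A).card : ℝ) := by exact_mod_cast h1
  have h2' : ((((Finset.range K).filter (fun i => ¬ A (c + 64 * i))).card : ℕ) : ℝ) ≤
      (((Finset.range (κ / 128 + 1)).filter J6BadY).card : ℝ) := by exact_mod_cast h2
  have h3' : ((((Finset.range K).filter (fun i => A (c + 64 * i))).card : ℕ) : ℝ) +
      ((((Finset.range K).filter (fun i => ¬ A (c + 64 * i))).card : ℕ) : ℝ) = K := by
    exact_mod_cast h3
  have h7 : (0 : ℝ) ≤ κ := Nat.cast_nonneg κ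
  linarith

lemma j6_choice (κ x0 : ℕ) (hκ : 800 ≤ κ) (hx : x0 < 128) (hpar : κ % 2 = x0 % 2) :
    ∃ c y0 : ℕ, 1 ≤ c ∧ c ≤ 64 ∧ κ = 2 * c + 128 * y0 + x0 := by
  refine ⟨((κ - x0) / 2 + 63) % 64 + 1, ((κ - x0) / 2 + 63) / 64 - 1, ?_, ?_, ?_⟩ <;> omega

theorem padm_count (ε : Bool) (κ : ℕ) (hκ : 800 ≤ κ) (hm : κ % 8 = (if ε then 7 else 1)) :
    (κ : ℝ) / 480 - 3 ≤ (({b ∈ Finset.range (κ + 1) | 1 ≤ b ∧ 6 * (b + 1) ≤ κ ∧
      Good 85 (κ - 2 * b)} : Set ℕ).ncard : ℝ) := by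
  classical
  have hodd : κ % 2 = 85 % 2 := by
    cases ε <;> simp at hm <;> omega
  obtain ⟨c, y0, h1, h2, h3⟩ := j6_choice κ 85 hκ (by norm_num) hodd
  have h4 := j6_main κ c y0 hκ h1 h2 h3
  have h5 : ({b ∈ Finset.range (κ + 1) | 1 ≤ b ∧ 6 * (b + 1) ≤ κ ∧
      Good 85 (κ - 2 * b)} : Set ℕ) = (((Finset.range (κ + 1)).filter
      (fun b => 1 ≤ b ∧ 6 * (b + 1) ≤ κ ∧ Good 85 (κ - 2 * b)) : Finset ℕ) : Set ℕ) := by
    ext b
    simp
  rw [h5, Set.ncard_coe_finset]
  exact h4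

end Pool.Agent.Helper5.MD
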