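import Pool.Agent.Helper5.MD3.R8PairRoots

/-!
# MS-J7 : number of larger roots

Same setting as `pair_roots` (`MD3/R8PairRoots.lean`), there `|I| = n`.
-/

open scoped Nat
open Polynomial

namespace Pool.Agent.Helper5.MD

open B2 R8 in
/-- the number of roots outside the valuation ring -/
private theorem card_aux_J7 {Γ₀ : Type*} [LinearOrderedCommGroupWithZero Γ₀] (v : Valuation ℂ Γ₀)
    (S : Multiset ℂ) (u : ℂ) (n : ℕ)
    (h1 : ∀ m, ¬ (n ≤ m ∧ m ≤ n + 2) →
      v (u * (S.map (fun a => (1 - C a * X : ℂ[X]))).prod.coeff m) < 1)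
    (h2 : ∀ m, n ≤ m → m ≤ n + 2 →
      v (u * (S.map (fun a => (1 - C a * X : ℂ[X]))).prod.coeff m - 1) < 1) :
    Multiset.card (S.filter (fun a => 1 < v a)) = n := by
  set p : ℂ[X] := (S.map (fun a => (1 - C a * X : ℂ[X]))).prod with hp
  set Q : v.valuationSubring[X] := (S.map (liftF v)).prod with hQ
  set l : ℂ := (S.map (scF v)).prod with hl
  have h2' : ∀ m, n ≤ m → m ≤ n + 2 → v (u * p.coeff m) = 1 := by
    intro m hm hm'
    have e : u * p.coeff m = 1 + (u * p.coeff m - 1) := by ring
    rw [e, v.map_add_eq_of_lt_left, v.map_one]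
    rw [v.map_one]
    exact h2 m hm hm'
  have h3 : ∀ m, v (u * p.coeff m) ≤ 1 := by
    intro m
    by_cases hmn : n ≤ m ∧ m ≤ n + 2
    · exact (h2' m hmn.1 hmn.2).le
    · exact (h1 m hmn).le
  have hu : u ≠ 0 := by
    rintro rfl
    have := h2' n le_rfl (by omega)
    rw [zero_mul, map_zero] at this
    exact zero_ne_one this
  have hvu : v u ≠ 0 := by rwa [Ne, v.zero_iff]
  have hl0 : l ≠ 0 := by
    rw [hl]
    apply Multiset.prod_ne_zero
    intro h
    obtain ⟨a, _, ha⟩ := Multiset.mem_map.1 h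
    exact scF_ne_zero v a ha
  have hQc : ∀ m, ((Q.coeff m : v.valuationSubring) : ℂ) = l * p.coeff m := by
    intro m
    have := congrArg (fun q => q.coeff m) (liftF_prod_map v S)
    simp only [coeff_map, coeff_C_mul] at this
    exact this
  have hQc' : ∀ m, ((Q.coeff m : v.valuationSubring) : ℂ) = (l / u) * (u * p.coeff m) := by
    intro m
    rw [hQc]
    field_simp
  have hQv : ∀ m, v ((Q.coeff m : v.valuationSubring) : ℂ) = (v l / v u) * v (u * p.coeff m) := by
    intro m
    rw [hQc, v.map_mul, v.map_mul]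
    field_simp
  have hle : ∀ m, v ((Q.coeff m : v.valuationSubring) : ℂ) ≤ 1 := fun m =>
    (Valuation.mem_valuationSubring_iff v _).1 (Q.coeff m).2
  obtain ⟨hne, htd⟩ := liftF_prod v S
  rw [← hQ] at hne htd
  have hr : v l / v u = 1 := by
    apply le_antisymm
    · have := hle n
      rwa [hQv, h2' n le_rfl (by omega), mul_one] at this
    · obtain ⟨m, hm⟩ : ∃ m, (Q.map (IsLocalRing.residue v.valuationSubring)).coeff m ≠ 0 := by
        by_contra hcon
        push Not at hcon
        exact hne (Polynomial.ext fun m => by rw [hcon m, coeff_zero])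
      rw [coeff_map, Ne, res_eq_zero_iff_aux, not_lt, hQv] at hm
      refine hm.trans ?_
      calc v l / v u * v (u * p.coeff m) ≤ v l / v u * 1 := by gcongr; exact h3 m
        _ = v l / v u := mul_one _
  -- the scalar
  have hlu : v (l / u) = 1 := by rw [map_div₀, hr]
  set c : v.valuationSubring := ⟨l / u, by
    rw [Valuation.mem_valuationSubring_iff]
    exact hlu.le⟩ with hc
  set w : ℕ → v.valuationSubring := fun m => ⟨u * p.coeff m, by
    rw [Valuation.mem_valuationSubring_iff]
    exact h3 m⟩ with hw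
  have hQw : ∀ m, Q.coeff m = c * w m := by
    intro m
    apply Subtype.ext
    rw [hQc' m]
    rfl
  have hc0 : IsLocalRing.residue v.valuationSubring c ≠ 0 := by
    rw [Ne, res_eq_zero_iff_aux]
    show ¬ v (l / u) < 1
    rw [hlu]
    exact lt_irrefl _
  have hw0 : ∀ m, ¬ (n ≤ m ∧ m ≤ n + 2) → IsLocalRing.residue v.valuationSubring (w m) = 0 := by
    intro m hm
    rw [res_eq_zero_iff_aux]
    exact h1 m hm
  have hw1 : ∀ m, n ≤ m → m ≤ n + 2 → IsLocalRing.residue v.valuationSubring (w m) = 1 := by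
    intro m hm hm'
    have : IsLocalRing.residue v.valuationSubring (w m - 1) = 0 := by
      rw [res_eq_zero_iff_aux]
      exact h2 m hm hm'
    rw [map_sub, map_one, sub_eq_zero] at this
    exact this
  have hQres : Q.map (IsLocalRing.residue v.valuationSubring) =
      C (IsLocalRing.residue v.valuationSubring c) * (X ^ n * (1 + X + X ^ 2)) := by
    ext m
    rw [coeff_map, hQw, map_mul, coeff_C_mul]
    congr 1
    have e : (X ^ n * (1 + X + X ^ 2) : (IsLocalRing.ResidueField v.valuationSubring)[X]) =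
        X ^ n + X ^ (n + 1) + X ^ (n + 2) := by ring
    rw [e, coeff_add, coeff_add, coeff_X_pow, coeff_X_pow, coeff_X_pow]
    by_cases hm : n ≤ m ∧ m ≤ n + 2
    · rw [hw1 m hm.1 hm.2]
      have : m = n ∨ m = n + 1 ∨ m = n + 2 := by omega
      rcases this with rfl | rfl | rfl
      · simp
      · simp
      · simp
    · rw [hw0 m hm, if_neg (by omega), if_neg (by omega), if_neg (by omega)]
      simp
  have hQres' := liftF_prod_res v S
  rw [← hQ] at hQres'
  set K := S.filter (fun a => v a = 1) with hK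
  set q : (IsLocalRing.ResidueField v.valuationSubring)[X] :=
    (K.map (fun a => 1 - C (resF v a) * X)).prod with hq
  have hquad0 : (1 + X + X ^ 2 : (IsLocalRing.ResidueField v.valuationSubring)[X]) ≠ 0 := by
    intro h0
    have := quad_deg (k := IsLocalRing.ResidueField v.valuationSubring)
    rw [h0, natDegree_zero] at this
    exact absurd this (by norm_num)
  have hcard : Multiset.card (S.filter (fun a => 1 < v a)) = n := by
    rw [← htd, hQres, natTrailingDegree_mul (C_ne_zero.2 hc0) (mul_ne_zero (pow_ne_zero _ X_ne_zero) hquad0),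
      natTrailingDegree_C, natTrailingDegree_mul (pow_ne_zero _ X_ne_zero) hquad0]
    have e1 : (1 + X + X ^ 2 : (IsLocalRing.ResidueField v.valuationSubring)[X]).natTrailingDegree = 0 := by
      rw [natTrailingDegree_eq_zero]
      right
      simp
    rw [e1, natTrailingDegree_X_pow, zero_add, add_zero]
  exact hcard

open B2 R8 in
theorem card_larger_of_pairAt {Γ₀ : Type*} [LinearOrderedCommGroupWithZero Γ₀]
    (v : Valuation ℂ Γ₀) (hv : v 2 < 1) (N n : ℕ) (M : Matrix (Fin N) (Fin N) ℚ) (s : ℤ)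
    (h : PairAt N n M s) :
    ((M.map (algebraMap ℚ ℂ)).charpoly.roots.filter
        (fun z => v ((2 : ℂ) ^ s) < v z)).card = n := by
  obtain ⟨u, h1, h2⟩ := h
  set R := (M.map (algebraMap ℚ ℂ)).charpoly.roots with hR
  have hfin := charpolyRev_final_aux M s
  rw [← hR] at hfin
  have hprod : (R.map (fun a => (1 - C ((2 : ℂ) ^ (-s) * a) * X : ℂ[X]))).prod =
      ((R.map (fun a => (2 : ℂ) ^ (-s) * a)).map (fun a => (1 - C a * X : ℂ[X]))).prod := by
    rw [Multiset.map_map]
    rfl
  rw [hprod] at hfin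
  have hco : ∀ m, (u : ℂ) * ((R.map (fun a => (2 : ℂ) ^ (-s) * a)).map
      (fun a => (1 - C a * X : ℂ[X]))).prod.coeff m =
      ((u * (((2 : ℚ) ^ (-s)) • M).charpolyRev.coeff m : ℚ) : ℂ) := by
    intro m
    rw [← hfin, coeff_map]
    push_cast
    rfl
  have hz : ((2 : ℂ) ^ s) ≠ 0 := zpow_ne_zero _ (by norm_num)
  have h20 : v ((2 : ℂ) ^ s) ≠ 0 := by
    rw [Ne, v.zero_iff]
    exact hz
  have hkey := card_aux_J7 v (R.map (fun a => (2 : ℂ) ^ (-s) * a)) (u : ℂ) n
    (fun m hm => by rw [hco]; exact v_VG1_aux v hv _ (h1 m hm))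
    (fun m hm hm' => by rw [hco]; exact v_Un_sub_one v hv _ (h2 m hm hm'))
  rw [Multiset.filter_map, Multiset.card_map] at hkey
  rw [← hkey]
  congr 1
  apply Multiset.filter_congr
  intro z _
  simp only [Function.comp]
  rw [v.map_mul, zpow_neg, map_inv₀, inv_mul_eq_div, one_lt_div₀ (zero_lt_iff.2 h20)]

end Pool.Agent.Helper5.MD
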