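import Pool.Agent.Helper5.MD.MF.F2Roots
import Pool.Agent.Helper5.MD3.R7PairDet
import Pool.Agent.Helper5.MD3.R10Roots
import Pool.Agent.Helper5.MD4.J5Crit
import Pool.Agent.Helper5.MD4.J6Count
import Pool.Agent.Helper5.MD4.J7Larger

/-!
# MS-J8 : many eigenvalues of `T_2` with residue a primitive cube root of unity

For each admissible pair index `b` the matrix has two roots `α, β` of valuation `v (2^(s_b))`, `v (α - β) = v (2^(s_b))`, with the residual equation (`pairCrit_of_padm`, `pairAt_of_pairCrit`, `pair_roots`).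
The slopes `s_b` of different admissible pair indices are different: by `card_larger_of_pairAt` exactly `b - 1` roots have larger `v` than `2^(s_b)`.
As in `MF/F1Main.lean`, `μ = α + 2^(2M-1)/α` is an eigenvalue of `T_2` (`eigenvalue_of_root`); `s_b ≤ 4 b + 5 log2 κ + 8 < κ` (`PS_upper`), so `v (2^(2M-1)/α) < v (2^(s_b+1))`, `v μ = v α`, the residual equation and
`v (μ_α - μ_β) = v (2^(s_b)) > 0` persist.  So all these `2 · #{b}` eigenvalues are distinct.
-/

open UpperHalfPlane hiding I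
open ModularForm MatrixGroups Filter Topology
open scoped Manifold Real Nat

namespace Pool.Agent.Helper5.MD

/-- the two roots at an admissible pair index -/
private theorem j8_pair (ε : Bool) (κ : ℕ) (hκ : 800 ≤ κ) {Γ₀ : Type*}
    [LinearOrderedCommGroupWithZero Γ₀] (v : Valuation ℂ Γ₀) (hv : v 2 < 1) (b : ℕ)
    (hA : PAdm ε κ b) :
    ∃ p : Bool → ℂ, (∀ c, ((MAT ε κ).map (algebraMap ℚ ℂ)).charpoly.IsRoot (p c) ∧
      v (p c) = v ((2 : ℂ) ^ padicValRat 2 (PS ε κ b)) ∧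
      v ((p c / 2 ^ padicValRat 2 (PS ε κ b)) ^ 2 + p c / 2 ^ padicValRat 2 (PS ε κ b) + 1) < 1) ∧
      v (p true - p false) = v ((2 : ℂ) ^ padicValRat 2 (PS ε κ b)) := by
  obtain ⟨α, β, h1, h2, h3, h4⟩ := pair_roots v hv _ _ _ _
    (pairAt_of_pairCrit _ _ _ _ (pairCrit_of_padm ε κ b hA hκ))
  have hα : α ∈ ((MAT ε κ).map (algebraMap ℚ ℂ)).charpoly.roots.filter
        (fun z => v z = v ((2 : ℂ) ^ padicValRat 2 (PS ε κ b))) := by
    rw [h1]
    simp
  have hβ : β ∈ ((MAT ε κ).map (algebraMap ℚ ℂ)).charpoly.roots.filter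
        (fun z => v z = v ((2 : ℂ) ^ padicValRat 2 (PS ε κ b))) := by
    rw [h1]
    simp
  rw [Multiset.mem_filter] at hα hβ
  refine ⟨fun c => if c then α else β, ?_, ?_⟩
  · intro c
    cases c
    · exact ⟨Polynomial.isRoot_of_mem_roots hβ.1, hβ.2, h4⟩
    · exact ⟨Polynomial.isRoot_of_mem_roots hα.1, hα.2, h3⟩
  · exact h2

theorem many_residual (ε : Bool) (κ : ℕ) (hκ : 800 ≤ κ) (hm : κ % 8 = (if ε then 7 else 1))
    {Γ₀ : Type*} [LinearOrderedCommGroupWithZero Γ₀] (v : Valuation ℂ Γ₀) (hv : v 2 < 1) :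
    ∃ S : Finset ℂ, (κ : ℝ) / 240 - 6 ≤ (S.card : ℝ) ∧
      ∀ z ∈ S, (T2 (2 * (κ : ℤ) + (if ε then 1 else 0))).charpoly.IsRoot z ∧
        ∃ s : ℤ, v ((z / 2 ^ s) ^ 2 + z / 2 ^ s + 1) < 1 := by
  classical
  set M : ℤ := 2 * (κ : ℤ) + (if ε then 1 else 0) with hM
  have hM1 : 2 * (κ : ℤ) ≤ M := by
    rw [hM]
    split_ifs <;> omega
  set GG : Finset ℕ := (Finset.range (κ + 1)).filter (fun b => 1 ≤ b ∧ 6 * (b + 1) ≤ κ ∧
    Good 85 (κ - 2 * b)) with hGG
  have hcount : (κ : ℝ) / 480 - 3 ≤ (GG.card : ℝ) := by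
    have h := padm_count ε κ hκ hm
    have e : ({b ∈ Finset.range (κ + 1) | 1 ≤ b ∧ 6 * (b + 1) ≤ κ ∧
      Good 85 (κ - 2 * b)} : Set ℕ) = (GG : Set ℕ) := by
      ext b
      simp [hGG]
    rw [e, Set.ncard_coe_finset] at h
    exact h
  have hadm : ∀ b ∈ GG, PAdm ε κ b := by
    intro b hb
    have h1 := (Finset.mem_filter.1 hb).2
    exact ⟨h1.1, h1.2.1, h1.2.2, hm⟩
  set s : ℕ → ℤ := fun b => padicValRat 2 (PS ε κ b) with hs
  have hp : ∀ b, ∃ p : Bool → ℂ, b ∈ GG →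
      (∀ c, ((MAT ε κ).map (algebraMap ℚ ℂ)).charpoly.IsRoot (p c) ∧
        v (p c) = v ((2 : ℂ) ^ s b) ∧
        v ((p c / 2 ^ s b) ^ 2 + p c / 2 ^ s b + 1) < 1) ∧
      v (p true - p false) = v ((2 : ℂ) ^ s b) := by
    intro b
    by_cases hb : b ∈ GG
    · obtain ⟨p, h⟩ := j8_pair ε κ hκ v hv b (hadm b hb)
      exact ⟨p, fun _ => h⟩
    · exact ⟨fun _ => 0, fun h => absurd h hb⟩
  choose p hp using hp
  have hsl : ∀ b ∈ GG, s b < M - 1 := by
    intro b hb
    have h1 := hadm b hb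
    have := R10.slope_lt ε κ hκ b h1.1 (by have := h1.2.1; omega)
    simp only [hs]
    omega
  have hsne : ∀ b ∈ GG, ∀ b' ∈ GG, s b = s b' → b = b' := by
    intro b hb b' hb' h
    have h1 := hadm b hb
    have h2 := hadm b' hb'
    have c1 := card_larger_of_pairAt v hv _ _ _ _
      (pairAt_of_pairCrit _ _ _ _ (pairCrit_of_padm ε κ b h1 hκ))
    have c2 := card_larger_of_pairAt v hv _ _ _ _
      (pairAt_of_pairCrit _ _ _ _ (pairCrit_of_padm ε κ b' h2 hκ))
    have h' : padicValRat 2 (PS ε κ b) = padicValRat 2 (PS ε κ b') := h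
    rw [h', c2] at c1
    have h3 := h1.1
    have h4 := h2.1
    omega
  have hne : ∀ b ∈ GG, ∀ c, p b c ≠ 0 := by
    intro b hb c h0
    have h1 := ((hp b hb).1 c).2.1
    rw [h0, map_zero] at h1
    exact (Valuation.ne_zero_iff v).2 (zpow_ne_zero _ two_ne_zero) h1.symm
  set μ : ℕ × Bool → ℂ := fun x => p x.1 x.2 + 2 ^ (2 * M - 1) / p x.1 x.2 with hμ
  have hδ : ∀ b ∈ GG, ∀ c, v ((2 : ℂ) ^ (2 * M - 1) / p b c) =
      v ((2 : ℂ) ^ (2 * M - 1 - s b)) := by
    intro b hb c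
    rw [map_div₀, ((hp b hb).1 c).2.1, ← map_div₀, ← zpow_sub₀ two_ne_zero]
  have hval : ∀ b ∈ GG, ∀ c, v (μ (b, c)) = v ((2 : ℂ) ^ s b) := by
    intro b hb c
    rw [← ((hp b hb).1 c).2.1]
    apply Valuation.map_add_eq_of_lt_left
    rw [hδ b hb, ((hp b hb).1 c).2.1]
    exact P12.zpow_lt v hv (by have := hsl b hb; omega)
  have hsq : ∀ b ∈ GG, ∀ c, p b c ^ 2 ≠ 2 ^ (2 * M - 2) := by
    intro b hb c h
    have h1 : v (p b c ^ 2) = v ((2 : ℂ) ^ (s b + s b)) := by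
      rw [map_pow, ((hp b hb).1 c).2.1, sq, ← map_mul, ← zpow_add₀ two_ne_zero]
    rw [h] at h1
    have h2 : v ((2 : ℂ) ^ (2 * M - 2)) < v ((2 : ℂ) ^ (s b + s b)) :=
      P12.zpow_lt v hv (by have := hsl b hb; omega)
    exact absurd h1 h2.ne
  have htf : ∀ b ∈ GG, μ (b, true) ≠ μ (b, false) := by
    intro b hb heq
    have h1 := (hp b hb).2
    have h2 : μ (b, true) - μ (b, false) = (p b true - p b false) +
        (2 ^ (2 * M - 1) / p b true - 2 ^ (2 * M - 1) / p b false) := by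
      simp only [hμ]; ring
    have h3 : v (μ (b, true) - μ (b, false)) = v ((2 : ℂ) ^ s b) := by
      rw [h2, ← h1]
      apply Valuation.map_add_eq_of_lt_left
      rw [h1]
      apply v.map_sub_lt
      · rw [hδ b hb]
        exact P12.zpow_lt v hv (by have := hsl b hb; omega)
      · rw [hδ b hb]
        exact P12.zpow_lt v hv (by have := hsl b hb; omega)
    rw [heq, sub_self, map_zero] at h3
    exact (Valuation.ne_zero_iff v).2 (zpow_ne_zero _ two_ne_zero) h3.symm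
  have hinj : Set.InjOn μ ((GG ×ˢ (Finset.univ : Finset Bool) : Finset (ℕ × Bool)) :
      Set (ℕ × Bool)) := by
    rintro ⟨b, c⟩ hb ⟨b', c'⟩ hb' heq
    rw [Finset.mem_coe, Finset.mem_product] at hb hb'
    have hb1 : b ∈ GG := hb.1
    have hb1' : b' ∈ GG := hb'.1
    have hbb : b = b' := by
      by_contra hne'
      have h1 : s b ≠ s b' := fun h => hne' (hsne b hb1 b' hb1' h)
      have h2 : v ((2 : ℂ) ^ s b) = v ((2 : ℂ) ^ s b') := by
        rw [← hval b hb1 c, ← hval b' hb1' c', heq]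
      rcases lt_or_gt_of_ne h1 with h3 | h3
      · exact absurd h2 (P12.zpow_lt v hv h3).ne'
      · exact absurd h2 (P12.zpow_lt v hv h3).ne
    subst hbb
    have hcc : c = c' := by
      cases c <;> cases c'
      · rfl
      · exact absurd heq.symm (htf b hb1)
      · exact absurd heq (htf b hb1)
      · rfl
    rw [hcc]
  refine ⟨(GG ×ˢ (Finset.univ : Finset Bool)).image μ, ?_, ?_⟩
  · rw [Finset.card_image_of_injOn hinj, Finset.card_product, Finset.card_univ, Fintype.card_bool]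
    push_cast
    linarith
  · intro z hz
    rw [Finset.mem_image] at hz
    obtain ⟨⟨b, c⟩, hb, rfl⟩ := hz
    have hb1 : b ∈ GG := (Finset.mem_product.1 hb).1
    have hpc := (hp b hb1).1 c
    refine ⟨(Module.End.hasEigenvalue_iff_isRoot_charpoly _ _).1
      (eigenvalue_of_root ε κ (p b c) hpc.1 (hne b hb1 c) (hsq b hb1 c)), s b, ?_⟩
    have e : μ (b, c) / 2 ^ s b = p b c / 2 ^ s b + (2 ^ (2 * M - 1) / p b c) / 2 ^ s b := by
      simp only [hμ]
      rw [add_div]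
    rw [e]
    apply R10.resid v _ _ hpc.2.2
    · have h0 : v ((2 : ℂ) ^ s b) ≠ 0 :=
        (Valuation.ne_zero_iff v).2 (zpow_ne_zero _ two_ne_zero)
      rw [map_div₀, hpc.2.1, div_self h0]
    · rw [map_div₀, hδ b hb1, ← map_div₀, ← zpow_sub₀ two_ne_zero]
      have h3 := P12.zpow_lt v hv (a := 0) (b := 2 * M - 1 - s b - s b)
        (by have := hsl b hb1; omega)
      rwa [zpow_zero, v.map_one] at h3

end Pool.Agent.Helper5.MD
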