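import Pool.Agent.Helper5.MD3.G4Move
import Pool.Agent.Helper5.MD3.G0Inst

/-!
# MS-J9 : a Galois element moving many roots

Take `σ` from `exists_frob`, its image `τ` in `P.Gal` (compare `MD3/G5Local.lean`: `Polynomial.Gal.restrict`, `galActionHom`), `E = PadicAlgCl 2`.  By `move_of_residue` with `x = z / 2^s` (`σ (2^s) = 2^s`), `σ z ≠ z` for
`z ∈ S`.  The support of the action on the roots in `E` contains `S`; transfer to `ℂ` by `rootsEquivRoots` (conjugate permutations).
-/

namespace Pool.Agent.Helper5.MD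

open Polynomial

private theorem j9_card_permCongr {α β : Type} [Fintype α] [DecidableEq α] [Fintype β]
    [DecidableEq β] (f : α ≃ β) (g : Equiv.Perm α) :
    (f.permCongr g).support.card = g.support.card := by
  symm
  refine Finset.card_bij (fun x _ => f x) ?_ ?_ ?_
  · intro x hx
    rw [Equiv.Perm.mem_support] at hx ⊢
    rw [Equiv.permCongr_apply, Equiv.symm_apply_apply]
    exact fun h => hx (f.injective h)
  · intro x _ y _ h
    exact f.injective h
  · intro y hy
    rw [Equiv.Perm.mem_support, Equiv.permCongr_apply] at hy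
    refine ⟨f.symm y, ?_, f.apply_symm_apply y⟩
    rw [Equiv.Perm.mem_support]
    intro h
    apply hy
    rw [h, Equiv.apply_symm_apply]

open Classical in
theorem exists_gal_moving (P : ℚ[X]) (hP : P ≠ 0) (S : Finset (PadicAlgCl 2))
    (hS : ∀ z ∈ S, (P.map (algebraMap ℚ (PadicAlgCl 2))).IsRoot z ∧
      ∃ s : ℤ, ‖(z / 2 ^ s) ^ 2 + z / 2 ^ s + 1‖ < 1) :
    ∃ τ : P.Gal, S.card ≤ (Gal.galActionHom P ℂ τ).support.card := by
  have hmap : P.map (algebraMap ℚ (PadicAlgCl 2)) ≠ 0 :=
    (Polynomial.map_ne_zero_iff (algebraMap ℚ (PadicAlgCl 2)).injective).2 hP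
  have hsplit : (P.map (algebraMap ℚ (PadicAlgCl 2))).Splits := IsAlgClosed.splits _
  have hmem : ∀ z ∈ S, z ∈ P.rootSet (PadicAlgCl 2) := by
    intro z hz
    rw [rootSet_def, Finset.mem_coe, Multiset.mem_toFinset, aroots_def, mem_roots hmap]
    exact (hS z hz).1
  obtain ⟨σ, hσ⟩ := exists_frob
  have : Fact ((P.map (algebraMap ℚ (PadicAlgCl 2))).Splits) := ⟨hsplit⟩
  let σ' : PadicAlgCl 2 ≃ₐ[ℚ] PadicAlgCl 2 := AlgEquiv.ofRingEquiv (f := σ.toRingEquiv)
    (fun q => by
      rw [eq_ratCast (algebraMap ℚ (PadicAlgCl 2)) q]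
      exact map_ratCast σ.toRingEquiv q)
  let τ : P.Gal := Gal.restrict P (PadicAlgCl 2) σ'
  let g : Equiv.Perm (P.rootSet (PadicAlgCl 2)) := Gal.galActionHom P (PadicAlgCl 2) τ
  have hg : ∀ x : P.rootSet (PadicAlgCl 2), ((g x : P.rootSet (PadicAlgCl 2)) : PadicAlgCl 2) =
      σ x := fun x => Gal.galActionHom_restrict P (PadicAlgCl 2) σ' x
  have hmove : ∀ z ∈ S, σ z ≠ z := by
    intro z hz h
    obtain ⟨s, hs⟩ := (hS z hz).2
    refine move_of_residue σ hσ _ hs ?_
    rw [map_div₀, h, map_zpow₀, map_ofNat]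
  have hcard : S.card ≤ g.support.card := by
    have h1 : S.card = (S.attach.image
        fun z => (⟨z.1, hmem z.1 z.2⟩ : P.rootSet (PadicAlgCl 2))).card := by
      rw [Finset.card_image_of_injective, Finset.card_attach]
      intro x y h
      exact Subtype.ext (Subtype.mk.inj h)
    rw [h1]
    refine Finset.card_le_card fun x hx => ?_
    obtain ⟨z, -, rfl⟩ := Finset.mem_image.1 hx
    rw [Equiv.Perm.mem_support]
    intro h
    have h2 := congrArg Subtype.val h
    rw [hg] at h2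
    exact hmove z.1 z.2 h2
  refine ⟨τ, ?_⟩
  have key : ((Gal.rootsEquivRoots P (PadicAlgCl 2)).symm.trans
      (Gal.rootsEquivRoots P ℂ)).permCongr g = Gal.galActionHom P ℂ τ := by
    ext x
    simp only [Equiv.permCongr_apply, g]
    congr 1
    change (Gal.rootsEquivRoots P ℂ) ((Gal.rootsEquivRoots P (PadicAlgCl 2)).symm
      ((Gal.rootsEquivRoots P (PadicAlgCl 2)) (τ • ((Gal.rootsEquivRoots P (PadicAlgCl 2)).symm
        ((Gal.rootsEquivRoots P (PadicAlgCl 2)) ((Gal.rootsEquivRoots P ℂ).symm x)))))) =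
      (Gal.rootsEquivRoots P ℂ) (τ • (Gal.rootsEquivRoots P ℂ).symm x)
    rw [Equiv.symm_apply_apply, Equiv.symm_apply_apply]
  rw [← key, j9_card_permCongr]
  exact hcard

end Pool.Agent.Helper5.MD
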