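import Pool.Agent.Helper5.MD3.G1Rat
import Pool.Agent.Helper5.MD3.G2Iso
import Pool.Agent.Helper5.MD4.J8Eigen
import Pool.Agent.Helper5.MD4.J9Move

/-!
# MS-J10 : final statement

As in `MD3/G7Final.lean`: `ι : ℂ ≃+* PadicAlgCl 2`, `v z = ‖ι z‖₊`, `many_residual`, `P` from `T2_charpoly_rational`, `exists_gal_moving` for the image of `S` under `ι`.
`k = 2 m = 4 κ + 2 ε`; `k ≡ 4 mod 32` gives `ε = false`, `κ ≡ 1 mod 8`, and `k ≡ 30 mod 32` gives `ε = true`, `κ ≡ 7 mod 8`.  `κ / 240 - 6 ≥ k / 960 - 7`.  For `κ < 800` the bound is negative (`k / 960 - 7 < 0`), trivial with `τ = 1`.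
-/

open UpperHalfPlane hiding I
open ModularForm MatrixGroups Filter Topology
open scoped Manifold Real Nat

namespace Pool.Agent.Helper5.MD

open Polynomial Classical in
private theorem j10_core (ε : Bool) (κ : ℕ) (hκ : 800 ≤ κ) (hm : κ % 8 = (if ε then 7 else 1))
    (M : ℤ) (hM : M = 2 * (κ : ℤ) + (if ε then 1 else 0)) :
    ∃ P : ℚ[X], P.map (algebraMap ℚ ℂ) = (T2 M).charpoly ∧
      ∃ τ : P.Gal, (κ : ℝ) / 240 - 6 ≤ ((Gal.galActionHom P ℂ τ).support.card : ℝ) := by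
  subst hM
  obtain ⟨P, hP⟩ := T2_charpoly_rational (2 * (κ : ℤ) + (if ε then 1 else 0))
  obtain ⟨ι⟩ := exists_ringEquiv_padicAlgCl 2
  have hn2 : ‖(2 : PadicAlgCl 2)‖ = 2⁻¹ := by
    have h := PadicAlgCl.valuation_p 2
    have h2 := congrArg (fun x : NNReal => (x : ℝ)) h
    simp only [PadicAlgCl.valuation_coe] at h2
    rw [Nat.cast_ofNat] at h2
    rw [h2]
    simp
  let v : Valuation ℂ NNReal := (Valued.v : Valuation (PadicAlgCl 2) NNReal).comap ι.toRingHom
  have hv : ∀ x, ((v x : NNReal) : ℝ) = ‖ι x‖ := fun x => rfl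
  have hv2 : v 2 < 1 := by
    have h1 : ((v 2 : NNReal) : ℝ) < 1 := by
      rw [hv, map_ofNat, hn2]
      norm_num
    exact_mod_cast h1
  obtain ⟨S, hcard, hS⟩ := many_residual ε κ hκ hm v hv2
  have hmonic : P.Monic := by
    refine monic_of_injective (algebraMap ℚ ℂ).injective ?_
    rw [hP]
    exact LinearMap.charpoly_monic _
  have hmap : P.map (algebraMap ℚ (PadicAlgCl 2)) =
      (P.map (algebraMap ℚ ℂ)).map ι.toRingHom := by
    rw [Polynomial.map_map]
    congr 1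
    exact Subsingleton.elim _ _
  obtain ⟨τ, hτ⟩ := exists_gal_moving P hmonic.ne_zero (S.image ι) (by
    intro z hz
    obtain ⟨w, hw, rfl⟩ := Finset.mem_image.1 hz
    obtain ⟨h1, s, h2⟩ := hS w hw
    refine ⟨?_, s, ?_⟩
    · rw [hmap, hP]
      exact h1.map (f := ι.toRingHom)
    · have h3 : ((v ((w / 2 ^ s) ^ 2 + w / 2 ^ s + 1) : NNReal) : ℝ) < 1 := by
        exact_mod_cast h2
      rw [hv] at h3
      simpa only [map_add, map_pow, map_div₀, map_zpow₀, map_ofNat, map_one] using h3)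
  refine ⟨P, hP, τ, ?_⟩
  rw [Finset.card_image_of_injective _ ι.injective] at hτ
  refine hcard.trans ?_
  exact_mod_cast hτ

open Polynomial Classical in
theorem moving_final (m : ℕ) (hm : 2 * m % 32 = 4 ∨ 2 * m % 32 = 30) :
    ∃ P : ℚ[X], P.map (algebraMap ℚ ℂ) = (T2 (m : ℤ)).charpoly ∧
      ∃ τ : P.Gal, ((2 * m : ℕ) : ℝ) / 960 - 7 ≤ ((Gal.galActionHom P ℂ τ).support.card : ℝ) := by
  obtain ⟨ε, κ, hκm, hκ8⟩ : ∃ (ε : Bool) (κ : ℕ), m = 2 * κ + (if ε then 1 else 0) ∧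
      κ % 8 = (if ε then 7 else 1) := by
    rcases hm with h | h
    · refine ⟨false, m / 2, ?_, ?_⟩
      · simp only [Bool.false_eq_true, if_false]
        omega
      · simp only [Bool.false_eq_true, if_false]
        omega
    · refine ⟨true, m / 2, ?_, ?_⟩
      · simp only [if_true]
        omega
      · simp only [if_true]
        omega
  have hmκ : (m : ℝ) ≤ 2 * κ + 1 := by
    have : m ≤ 2 * κ + 1 := by
      rw [hκm]
      split_ifs <;> omega
    exact_mod_cast this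
  by_cases hκ : 800 ≤ κ
  · obtain ⟨P, hP, τ, hτ⟩ := j10_core ε κ hκ hκ8 (m : ℤ) (by
      rw [hκm]
      push_cast
      rfl)
    refine ⟨P, hP, τ, le_trans ?_ hτ⟩
    push_cast
    linarith
  · obtain ⟨P, hP⟩ := T2_charpoly_rational (m : ℤ)
    refine ⟨P, hP, 1, le_trans ?_ (Nat.cast_nonneg _)⟩
    have h1 : (κ : ℝ) ≤ 800 := by
      have : κ ≤ 800 := by omega
      exact_mod_cast this
    push_cast
    linarith

end Pool.Agent.Helper5.MD
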